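import Pool.Agent.D0H80.Eval

set_option autoImplicit false

/-! Special boundary flags count once; total count. -/

namespace Pool.Agent.D0H80.Eval

open Finset Pool.Agent.D0H80.FlagParity Pool.Agent.D0H80.Clus Pool.Agent.D0H80.Ring

noncomputable section

variable {d K : ℕ} {S : Net d (MM d K)} (G : Good d K S)

include G

/-- Special flags count once. -/
theorem Good.count (j0 : Fin (d + 1)) (b : Bool) (hb : b = true → j0 = Fin.last d) :
    S.labelData.N (fcell (spec d G.pos j0 b)) = 1 := by
  have hK := G.pos
  have hD0 := G.D_nonneg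
  have hDle := G.hD
  have hhle := G.hh_le
  have hhpos := hh_pos d hK
  have hgp := gap_pos (d := d)
  rw [gap_small] at hDle hhle
  have hδ1 : 1 / ((d : ℝ) + 1) ≤ 1 := by
    rw [div_le_one (by positivity)]
    have : (0 : ℝ) ≤ d := Nat.cast_nonneg d
    linarith
  set δ := 1 / ((d : ℝ) + 1) with hδ
  set F := spec d G.pos j0 b with hF
  have hσ0 : F.2.2 j0 = Fin.last d := spec_perm_same _ _ _
  have hx0 : vx F j0 = 0 ∨ vx F j0 = MM d K := by
    unfold vx
    rw [hF, spec_y_same, spec_s_same]
    have := MM_pos (d := d) hK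
    cases b
    · left; simp
    · right; simp; omega
  have hxq : ∀ i : Fin d, vx F (j0.succAbove i) = GG d K i := by
    intro i
    unfold vx
    rw [hF, spec_y_above, spec_s_above]
    simp
  have hlo : ∀ b, b ≤ d → (fcell F b).lo j0 = vx F j0 := by
    intro b hb
    simp only [fcell]
    rw [if_neg]
    rw [hσ0, Fin.val_last]
    omega
  have hhi : ∀ b, b ≤ d → (fcell F b).hi j0 = vx F j0 := by
    intro b hb
    simp only [fcell]
    rw [if_neg]
    rw [hσ0, Fin.val_last]
    omega
  have hv : ∀ b, b ≤ d → (fcell F b).lo j0 = (fcell F b).hi j0 := by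
    intro b hb; rw [hlo b hb, hhi b hb]
  have hv' : ∀ b, b ≤ d → (fcell F b).lo j0 = 0 ∨ (fcell F b).lo j0 = MM d K := by
    intro b hb; rw [hlo b hb]; exact hx0
  -- running maxima of perturbed vertices
  have hVx : ∀ (x : Fin (d + 1) → ℕ) (i : Fin d), (∀ l, l ≠ j0.succAbove i → x l = vx F l) →
      GG d K i ≤ x (j0.succAbove i) → V x ((j0.succAbove i : ℕ) + 1) = x (j0.succAbove i) := by
    intro x i hx1 hx2
    apply le_antisymm
    · apply V_le
      intro l hl
      by_cases hli : l = j0.succAbove i
      · rw [hli]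
      · rw [hx1 l hli]
        have hlt : l < j0.succAbove i := by
          apply lt_of_le_of_ne _ hli
          exact Nat.lt_succ_iff.1 hl
        rcases Fin.eq_self_or_eq_succAbove j0 l with h | ⟨i', h⟩
        · rw [h] at hlt ⊢
          cases hbb : b with
          | false =>
            have : vx F j0 = 0 := by
              unfold vx
              rw [hF, spec_y_same, spec_s_same, hbb]; simp
            rw [this]; exact Nat.zero_le _
          | true =>
            rw [hb hbb] at hlt
            exact absurd hlt (not_lt.2 (Fin.le_last _))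
        · rw [h, hxq]
          rw [h] at hlt
          have : i' < i := (Fin.strictMono_succAbove j0).lt_iff_lt.1 hlt
          refine le_trans ?_ hx2
          unfold GG
          have h1 : (i' : ℕ) ≤ i := this.le
          have h2 := Nat.mul_le_mul_right K h1
          omega
    · exact le_V x (Nat.lt_succ_self _)
  have hVx0 : ∀ i : Fin d, V (vx F) ((j0.succAbove i : ℕ) + 1) = GG d K i := by
    intro i
    rw [hVx (vx F) i (fun _ _ => rfl) (by rw [hxq]), hxq]
  have hqd : ∀ i : Fin d, (j0.succAbove i : ℕ) + 1 ≤ d + 1 := by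
    intro i
    have := (j0.succAbove i).2
    omega
  -- gate points
  have hgu : ∀ i : Fin d, |uu d K (GG d K i)| < 2 := by
    intro i
    rw [uu_GG d hK, abs_lt]
    have := tt_nonneg (d := d) i
    have := tt_lt i
    constructor <;> linarith
  have hgim : ∀ i : Fin d, (gam d K (GG d K i)).im < 0 := fun i => gam_im_neg d (hgu i)
  have hgre : ∀ i : Fin d, (gam d K (GG d K i)).re = tt d i := by
    intro i
    rw [gam_re d (hgim i), uu_GG d hK]
  have hgU0 : ∀ i : Fin d, gam d K (GG d K i) ∈ S.U (fcell F 0) := by
    intro i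
    rw [← hVx0 i]
    exact G.mem_of (hv 0 (Nat.zero_le _)) (hv' 0 (Nat.zero_le _)) (vx_mem F 0) (hqd i)
  have hpU0 : pin ∈ S.U (fcell F 0) := by
    have h := G.mem_of (hv 0 (Nat.zero_le _)) (hv' 0 (Nat.zero_le _)) (vx_mem F 0)
      (Nat.zero_le (d + 1))
    rwa [V_zero, gam_zero] at h
  have hU0 : ∀ z ∈ S.U (fcell F 0), z = pin ∨ ∃ i : Fin d, z = gam d K (GG d K i) := by
    intro z hz
    rcases G.points (hv 0 (Nat.zero_le _)) (hv' 0 (Nat.zero_le _)) hz with h | ⟨x, hx, j, l, h1, h2, h3, h4⟩
    · exact Or.inl h
    · right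
      obtain ⟨i', hi'⟩ := Fin.exists_succAbove_eq h3
      refine ⟨i', ?_⟩
      rw [h4, eq_vx hx, ← hi', hxq]
  have hpg : ∀ (w : ℂ), w.im < 0 → S.D < dist w pin := by
    intro w hw
    have h1 := im_dist w pin
    have h2 : |w.im - pin.im| = 2 - w.im := by
      simp only [pin]
      rw [abs_of_neg (by linarith)]
      ring
    rw [h2] at h1
    linarith
  have hgg : ∀ i i' : Fin d, dist (gam d K (GG d K i)) (gam d K (GG d K i')) ≤ S.D → i = i' := by
    intro i i' h
    have h1 := re_dist (gam d K (GG d K i)) (gam d K (GG d K i'))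
    rw [hgre, hgre] at h1
    apply Fin.ext
    apply tt_inj (d := d)
    rw [← hδ]
    linarith
  have hrepU0 : ∀ z ∈ S.U (fcell F 0), S.rep (fcell F 0) z = z := by
    intro z hz
    have h1 := S.rep_mem hz
    have h2 : S.rep (fcell F 0) (S.rep (fcell F 0) z) = S.rep (fcell F 0) z := S.rep_rep le_rfl z
    have h3 := S.rep_dist h2
    rcases hU0 z hz with h4 | ⟨i, h4⟩
    · rcases hU0 _ h1 with h5 | ⟨i', h5⟩
      · rw [h5, h4]
      · rw [h5, h4] at h3
        have := hpg _ (hgim i')
        linarith
    · rcases hU0 _ h1 with h5 | ⟨i', h5⟩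
      · rw [h5, h4, dist_comm] at h3
        have := hpg _ (hgim i)
        linarith
      · rw [h5, h4] at h3
        rw [h5, h4, hgg _ _ h3]
  set J0 : Fin (d + 1) → ℂ := Fin.snoc (α := fun _ => ℂ) (fun i => gam d K (GG d K i)) pin with hJ0
  have hJ0c : ∀ i : Fin d, J0 i.castSucc = gam d K (GG d K i) := by
    intro i; rw [hJ0, Fin.snoc_castSucc]
  have hJ0l : J0 (Fin.last d) = pin := by
    rw [hJ0, Fin.snoc_last]
  have hJ0m : J0 ∈ S.labelData.JJ (fcell F 0) := by
    rw [LabelData.mem_JJ]
    constructor
    · intro j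
      refine Fin.lastCases ?_ ?_ j
      · rw [hJ0l]
        exact Finset.mem_image.2 ⟨pin, hpU0, hrepU0 _ hpU0⟩
      · intro i
        rw [hJ0c]
        exact Finset.mem_image.2 ⟨_, hgU0 i, hrepU0 _ (hgU0 i)⟩
    · intro j j'
      refine Fin.lastCases ?_ ?_ j
      · refine Fin.lastCases ?_ ?_ j'
        · intro _; rfl
        · intro i' h
          rw [hJ0l, hJ0c] at h
          have := hgim i'
          rw [← h] at this
          simp only [pin] at this
          norm_num at this
      · intro i
        refine Fin.lastCases ?_ ?_ j'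
        · intro h
          rw [hJ0l, hJ0c] at h
          have := hgim i
          rw [h] at this
          simp only [pin] at this
          norm_num at this
        · intro i' h
          rw [hJ0c, hJ0c] at h
          rw [hgg i i' (by rw [h, dist_self]; exact hD0)]
  -- points near a gate
  have hclass : ∀ (b : ℕ), b ≤ d → ∀ (i : Fin d), ∀ w ∈ S.U (fcell F b),
      dist w (gam d K (GG d K i)) ≤ S.D → ∃ x : Fin (d + 1) → ℕ, (∀ j, (fcell F b).lo j ≤ x j ∧ x j ≤ (fcell F b).hi j) ∧
        w = gam d K (x (j0.succAbove i)) := by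
    intro b hb i w hw hdist
    rcases G.points (hv b hb) (hv' b hb) hw with h | ⟨x, hx, j, l, h1, h2, h3, h4⟩
    · rw [h, dist_comm] at hdist
      have := hpg _ (hgim i)
      linarith
    · obtain ⟨i', hi'⟩ := Fin.exists_succAbove_eq h3
      have hn := near_vx hx l
      have hn2 := uu_near (d := d) hK hn.1 hn.2
      rw [← hi', hxq i', uu_GG d hK, hi'] at hn2
      have h5 : (gam d K (x l)).im < 0 := by
        apply gam_im_neg
        rw [abs_le] at hn2
        rw [abs_lt]
        have := tt_nonneg (d := d) i'
        have := tt_lt i'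
        constructor <;> linarith [hn2.1, hn2.2]
      have h6 : w.re = uu d K (x l) := by rw [h4]; exact gam_re d h5
      have h7 := re_dist w (gam d K (GG d K i))
      rw [hgre, h6] at h7
      have h8 : i = i' := by
        apply Fin.ext
        apply tt_inj (d := d)
        rw [← hδ]
        rw [abs_le] at hn2 h7
        rw [abs_lt]
        constructor <;> linarith [hn2.1, hn2.2, h7.1, h7.2]
      refine ⟨x, hx, ?_⟩
      rw [h8, hi', h4]
  have hgUb : ∀ b (i : Fin d), gam d K (GG d K i) ∈ S.U (fcell F b) := fun b i =>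
    S.U_mono (fcell_mono F (Nat.zero_le b)) (hgU0 i)
  have hyq : ∀ i : Fin d, (F.1 (j0.succAbove i) : ℕ) = GG d K i := fun i => spec_y_above _ _ _ _
  have hsq : ∀ i : Fin d, F.2.1 (j0.succAbove i) = false := fun i => spec_s_above _ _ _ _
  have hσq : ∀ i : Fin d, F.2.2 (j0.succAbove i) = i.castSucc := fun i => spec_perm_above _ _ _ _
  have hLt : ∀ i : Fin d, S.Lt i (fcell F i) (gam d K (GG d K i)) := by
    intro i w hw hwr
    obtain ⟨x, hx, hwx⟩ := hclass i i.2.le i w hw (S.rep_dist hwr)
    have h1 := (hx (j0.succAbove i)).2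
    have h2 : (fcell F i).hi (j0.succAbove i) = GG d K i := by
      simp only [fcell]
      rw [if_neg, hxq]
      rw [hσq]; simp
    rw [h2] at h1
    have hn := near_vx hx (j0.succAbove i)
    have hn2 := uu_near (d := d) hK hn.1 hn.2
    rw [hxq i, uu_GG d hK] at hn2
    have h5 : (gam d K (x (j0.succAbove i))).im < 0 := by
      apply gam_im_neg
      rw [abs_le] at hn2
      rw [abs_lt]
      have := tt_nonneg (d := d) i
      have := tt_lt i
      constructor <;> linarith [hn2.1, hn2.2]
    rw [G.hA, hwx]
    refine ⟨h5, ?_⟩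
    rw [gam_re d h5, ← uu_GG d hK, uu_le_iff d hK]
    exact h1
  have hMx : ∀ i : Fin d, S.Mx i (fcell F (i + 1)) (gam d K (GG d K i)) := by
    intro i
    have hid : (i : ℕ) + 1 ≤ d := i.2
    refine ⟨⟨_, hgUb _ i, rfl, ?_⟩, ?_⟩
    · rw [G.hA]
      exact ⟨hgim i, (hgre i).le⟩
    · set x := Function.update (vx F) (j0.succAbove i) (GG d K i + 1) with hx
      have hxm : ∀ j, (fcell F (i + 1)).lo j ≤ x j ∧ x j ≤ (fcell F (i + 1)).hi j := by
        intro j
        by_cases hj : j = j0.succAbove i
        · rw [hj, hx, Function.update_self]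
          simp only [fcell]
          rw [hσq]
          simp [hyq]
        · rw [hx, Function.update_of_ne hj]
          exact vx_mem F _ j
      have hxs : x (j0.succAbove i) = GG d K i + 1 := by rw [hx, Function.update_self]
      have h1 : V x ((j0.succAbove i : ℕ) + 1) = GG d K i + 1 := by
        rw [hVx x i (fun l hl => by rw [hx, Function.update_of_ne hl]) (by rw [hxs]; omega), hxs]
      have h2 : gam d K (GG d K i + 1) ∈ S.U (fcell F (i + 1)) := by
        rw [← h1]
        exact G.mem_of (hv _ hid) (hv' _ hid) hxm (hqd i)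
      have h3 : uu d K (GG d K i + 1) = tt d i + hh d K := by
        rw [uu_succ, uu_GG d hK]
      have h4 : (gam d K (GG d K i + 1)).im < 0 := by
        apply gam_im_neg
        rw [h3, abs_lt]
        have := tt_nonneg (d := d) i
        have := tt_lt i
        constructor <;> linarith
      refine ⟨_, h2, ?_, ?_⟩
      · apply S.rep_of_dist h2 (hgUb _ i)
        refine le_trans ?_ G.hη
        exact gam_step d hK (by omega) (by omega)
      · rw [G.hB]
        refine ⟨h4, ?_⟩
        rw [gam_re d h4, h3]
        linarith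
  have hcc : ∀ i : Fin d, S.cc i (gam d K (GG d K i)) (fcell F i) (fcell F (i + 1)) = 1 := by
    intro i
    unfold Net.cc
    rw [if_pos ⟨hLt i, hMx i⟩]
  unfold LabelData.N
  rw [Finset.sum_eq_single J0]
  · apply Finset.prod_eq_one
    intro i _
    rw [hJ0c]
    exact hcc i
  · intro J hJ hne
    by_contra hprod
    apply hne
    have hfac : ∀ i : Fin d, S.cc i (J i.castSucc) (fcell F i) (fcell F (i + 1)) ≠ 0 := by
      intro i hi
      exact hprod (Finset.prod_eq_zero (Finset.mem_univ i) hi)
    have hLM : ∀ i : Fin d, S.Lt i (fcell F i) (J i.castSucc) ∧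
        S.Mx i (fcell F (i + 1)) (J i.castSucc) := by
      intro i
      by_contra hcon
      apply hfac i
      unfold Net.cc
      rw [if_neg hcon]
    have hJU : ∀ j, J j ∈ S.U (fcell F 0) := fun j =>
      S.labelData.lab_subset _ (((S.labelData.mem_JJ).1 hJ).1 j)
    have hJc : ∀ i : Fin d, J i.castSucc = gam d K (GG d K i) := by
      intro i
      have hA1 := (G.hA i _).1 ((hLM i).1 _ (S.U_mono (fcell_mono F (Nat.zero_le _)) (hJU _)) rfl)
      rcases hU0 _ (hJU i.castSucc) with h | ⟨i', h⟩
      · have := hA1.1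
        rw [h] at this
        simp only [pin] at this
        norm_num at this
      · obtain ⟨_, ⟨w, hw, hw1, hw2⟩⟩ := (hLM i).2
        have hw3 := (G.hB i w).1 hw2
        have hw4 := S.rep_dist hw1
        have hw5 := re_dist w (J i.castSucc)
        rw [h, hgre] at hA1 hw5
        rw [h] at hw4
        rw [h]
        have : i = i' := by
          apply Fin.ext
          apply tt_inj (d := d)
          rw [← hδ]
          rw [abs_le] at hw5
          rw [abs_lt]
          constructor <;> linarith [hw5.1, hw5.2, hA1.2, hw3.2]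
        rw [this]
    funext j
    refine Fin.lastCases ?_ ?_ j
    · rw [hJ0l]
      rcases hU0 _ (hJU (Fin.last d)) with h | ⟨i', h⟩
      · exact h
      · rw [← hJc i'] at h
        have := ((S.labelData.mem_JJ).1 hJ).2 h
        exact absurd this (Fin.castSucc_lt_last i').ne'
    · intro i
      rw [hJ0c, hJc]
  · intro h
    exact absurd hJ0m h

/-- the boundary count -/
theorem Good.total : ((d + 2 : ℕ) : ZMod 2) = 0 := by
  have hK := G.pos
  have hmain := main_parity S.labelData
  set I : Finset (Flag (d + 1) (MM d K)) :=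
    insert (spec d hK (Fin.last d) true) (Finset.univ.image (fun j0 => spec d hK j0 false)) with hI
  have hjl : ∀ (j0 : Fin (d + 1)) (b : Bool), jl (spec d hK j0 b) = j0 := by
    intro j0 b
    unfold jl
    rw [Equiv.symm_apply_eq, spec_perm_same]
  have hIsub : I ⊆ (Finset.univ : Finset (Flag (d + 1) (MM d K))).filter Bd := by
    intro F hF
    rw [Finset.mem_filter]
    refine ⟨Finset.mem_univ _, ?_⟩
    rw [hI, Finset.mem_insert, Finset.mem_image] at hF
    have hM := MM_pos (d := d) hK
    rcases hF with h | ⟨j0, _, h⟩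
    · right
      rw [h, hjl, spec_s_same, spec_y_same]
      refine ⟨rfl, ?_⟩
      simp
      omega
    · left
      rw [← h, hjl, spec_s_same, spec_y_same]
      exact ⟨rfl, by simp⟩
  have hcardI : I.card = d + 2 := by
    rw [hI, Finset.card_insert_of_notMem, Finset.card_image_of_injective, Finset.card_univ,
      Fintype.card_fin]
    · intro j j' h
      have := congrArg jl h
      simp only [hjl] at this
      exact this
    · intro h
      obtain ⟨j0, _, h⟩ := Finset.mem_image.1 h
      have h1 : j0 = Fin.last d := by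
        have := congrArg jl h
        rwa [hjl, hjl] at this
      subst h1
      have := congrArg (fun F : Flag (d + 1) (MM d K) => F.2.1 (Fin.last d)) h
      simp only [spec_s_same] at this
      exact absurd this (by simp)
  have hsum : ∑ F ∈ (Finset.univ : Finset (Flag (d + 1) (MM d K))).filter Bd,
      S.labelData.N (fcell F) = ∑ F ∈ I, S.labelData.N (fcell F) := by
    symm
    apply Finset.sum_subset hIsub
    intro F hF hFI
    by_contra hN
    apply hFI
    have hB : Bd F := (Finset.mem_filter.1 hF).2
    unfold LabelData.N at hN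
    obtain ⟨J, hJ, hJN⟩ := Finset.exists_ne_zero_of_sum_ne_zero hN
    have hLM : ∀ i : Fin d, S.Lt i (fcell F i) (J i.castSucc) ∧
        S.Mx i (fcell F (i + 1)) (J i.castSucc) := by
      intro i
      by_contra hcon
      apply hJN
      apply Finset.prod_eq_zero (Finset.mem_univ i)
      change S.cc i (J i.castSucc) (fcell F i) (fcell F (i + 1)) = 0
      unfold Net.cc
      rw [if_neg hcon]
    obtain ⟨j0, b, hb, hFs⟩ := G.vanish hB hJ hLM
    rw [hI, Finset.mem_insert, Finset.mem_image]
    cases b with
    | false => right; exact ⟨j0, Finset.mem_univ _, hFs.symm⟩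
    | true => left; rw [hFs, hb rfl]
  have hones : ∑ F ∈ I, S.labelData.N (fcell F) = ∑ F ∈ I, 1 := by
    apply Finset.sum_congr rfl
    intro F hF
    rw [hI, Finset.mem_insert, Finset.mem_image] at hF
    rcases hF with h | ⟨j0, _, h⟩
    · rw [h]
      exact G.count _ _ (fun _ => rfl)
    · rw [← h]
      exact G.count _ _ (fun h => absurd h (by simp))
  rw [hsum, hones, Finset.sum_const, hcardI] at hmain
  simpa using hmain

end

end Pool.Agent.D0H80.Eval
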