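import Pool.Agent.D0H80.Ring

set_option autoImplicit false

/-! Evaluation of the label count on boundary flags. -/

namespace Pool.Agent.D0H80.Eval

open Finset Pool.Agent.D0H80.FlagParity Pool.Agent.D0H80.Clus Pool.Agent.D0H80.Ring

noncomputable section

/-- a net which is explicit on the boundary -/
structure Good (d K : ℕ) (S : Net d (MM d K)) : Prop where
  hK : 16 ≤ K
  hA : ∀ i z, S.A i z ↔ (z.im < 0 ∧ z.re ≤ tt d i)
  hB : ∀ i z, S.B i z ↔ (z.im < 0 ∧ tt d i < z.re)
  hY : ∀ x, (∀ j, x j ≤ MM d K) → (∃ j, x j = 0 ∨ x j = MM d K) → S.Y x = AA d K x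
  hη : 2 * hh d K ≤ S.η
  hD : S.D ≤ 1 / (16 * ((d : ℝ) + 1))

variable {d K : ℕ} {S : Net d (MM d K)} (G : Good d K S)

include G

theorem Good.pos : 0 < K := lt_of_lt_of_le (by norm_num) G.hK

theorem Good.hh_le : hh d K ≤ 1 / (16 * ((d : ℝ) + 1)) := by
  unfold hh
  have : (16 : ℝ) ≤ K := by exact_mod_cast G.hK
  apply one_div_le_one_div_of_le (by positivity)
  gcongr

omit G in
theorem Good.D_nonneg (_ : Good d K S) : 0 ≤ S.D := by
  refine le_trans ?_ S.hD
  have := S.hη
  positivity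

omit G in
theorem tt_gap {i i' : ℕ} (h : i < i') : tt d i + 1 / ((d : ℝ) + 1) ≤ tt d i' := by
  unfold tt
  rw [← add_div]
  have : (i : ℝ) + 1 ≤ i' := by exact_mod_cast h
  gcongr

omit G in
theorem tt_nonneg (i : ℕ) : 0 ≤ tt d i := by
  unfold tt; positivity

omit G in
theorem tt_lt (i : Fin d) : tt d i + 1 / ((d : ℝ) + 1) ≤ 1 := by
  have h := tt_gap (d := d) (i := i) (i' := d) i.2
  refine h.trans ?_
  unfold tt
  rw [div_le_one (by positivity)]
  linarith

omit G in
theorem gap_small : 1 / (16 * ((d : ℝ) + 1)) = (1 / ((d : ℝ) + 1)) / 16 := by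
  field_simp

omit G in
theorem gap_pos : 0 < 1 / ((d : ℝ) + 1) := by positivity

omit G in
theorem tt_inj {i i' : ℕ} (h : |tt d i - tt d i'| < 1 / ((d : ℝ) + 1)) : i = i' := by
  rcases lt_trichotomy i i' with h1 | h1 | h1
  · have := tt_gap (d := d) h1
    rw [abs_lt] at h
    linarith [h.1]
  · exact h1
  · have := tt_gap (d := d) h1
    rw [abs_lt] at h
    linarith [h.2]

theorem Good.points {τ : Cell (d + 1) (MM d K)} {j0 : Fin (d + 1)} (hv : τ.lo j0 = τ.hi j0)
    (hv' : τ.lo j0 = 0 ∨ τ.lo j0 = MM d K) {z : ℂ} (hz : z ∈ S.U τ) :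
    z = pin ∨ ∃ x, (∀ j, τ.lo j ≤ x j ∧ x j ≤ τ.hi j) ∧ ∃ (j : ℕ) (l : Fin (d + 1)),
      (l : ℕ) < j ∧ V x j = x l ∧ l ≠ j0 ∧ z = gam d K (x l) := by
  obtain ⟨x, hx, hz⟩ := S.mem_U.1 hz
  have hxj : x j0 = 0 ∨ x j0 = MM d K := by
    have := hx j0
    rcases hv' with h | h
    · left; omega
    · right; omega
  rw [G.hY x (Net.le_M hx) ⟨j0, hxj⟩] at hz
  obtain ⟨j, hj, rfl⟩ := (mem_AA d).1 hz
  rcases V_cases x j with h | ⟨l, hl, hVl⟩
  · left
    rw [h, gam_zero]
  · by_cases hlj : l = j0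
    · left
      subst hlj
      rw [hVl]
      rcases hxj with h | h
      · rw [h, gam_zero]
      · rw [h, gam_MM d G.pos]
    · right
      exact ⟨x, hx, j, l, hl, hVl, hlj, by rw [hVl]⟩

theorem Good.mem_of {τ : Cell (d + 1) (MM d K)} {j0 : Fin (d + 1)} (hv : τ.lo j0 = τ.hi j0)
    (hv' : τ.lo j0 = 0 ∨ τ.lo j0 = MM d K) {x : Fin (d + 1) → ℕ}
    (hx : ∀ j, τ.lo j ≤ x j ∧ x j ≤ τ.hi j) {j : ℕ} (hj : j ≤ d + 1) :
    gam d K (V x j) ∈ S.U τ := by
  have hxj : x j0 = 0 ∨ x j0 = MM d K := by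
    have := hx j0
    rcases hv' with h | h
    · left; omega
    · right; omega
  rw [S.mem_U]
  refine ⟨x, hx, ?_⟩
  rw [G.hY x (Net.le_M hx) ⟨j0, hxj⟩]
  exact (mem_AA d).2 ⟨j, hj, rfl⟩

omit G in
theorem GG_lt (hK : 0 < K) (i : Fin d) : GG d K i < MM d K := by
  unfold GG MM
  have := i.2
  have h1 : (i : ℕ) * K ≤ d * K := Nat.mul_le_mul_right _ this.le
  nlinarith

omit G in
theorem MM_pos (hK : 0 < K) : 0 < MM d K := by
  unfold MM; positivity

/-- the special flags -/
def spec (d : ℕ) {K : ℕ} (hK : 0 < K) (j0 : Fin (d + 1)) (b : Bool) : Flag (d + 1) (MM d K) :=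
  (Fin.insertNth (α := fun _ => Fin (MM d K)) j0
      (if b then ⟨MM d K - 1, by have := MM_pos (d := d) hK; omega⟩ else ⟨0, MM_pos hK⟩)
      (fun i => ⟨GG d K i, GG_lt hK i⟩),
    Fin.insertNth (α := fun _ => Bool) j0 b (fun _ => false),
    (finSuccEquiv' j0).trans (finSuccEquiv' (Fin.last d)).symm)

omit G in
theorem spec_perm_same (hK : 0 < K) (j0 : Fin (d + 1)) (b : Bool) :
    (spec d hK j0 b).2.2 j0 = Fin.last d := by
  simp [spec]

omit G in
theorem spec_perm_above (hK : 0 < K) (j0 : Fin (d + 1)) (b : Bool) (i : Fin d) :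
    (spec d hK j0 b).2.2 (j0.succAbove i) = i.castSucc := by
  simp [spec, Fin.succAbove_last]

omit G in
theorem spec_s_same (hK : 0 < K) (j0 : Fin (d + 1)) (b : Bool) :
    (spec d hK j0 b).2.1 j0 = b := by
  simp [spec]

omit G in
theorem spec_s_above (hK : 0 < K) (j0 : Fin (d + 1)) (b : Bool) (i : Fin d) :
    (spec d hK j0 b).2.1 (j0.succAbove i) = false := by
  simp [spec]

omit G in
theorem spec_y_same (hK : 0 < K) (j0 : Fin (d + 1)) (b : Bool) :
    ((spec d hK j0 b).1 j0 : ℕ) = if b then MM d K - 1 else 0 := by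
  cases b <;> simp [spec]

omit G in
theorem spec_y_above (hK : 0 < K) (j0 : Fin (d + 1)) (b : Bool) (i : Fin d) :
    ((spec d hK j0 b).1 (j0.succAbove i) : ℕ) = GG d K i := by
  simp [spec]

omit G in
theorem eq_spec (hK : 0 < K) {F : Flag (d + 1) (MM d K)} {j0 : Fin (d + 1)} {b : Bool}
    (h1 : F.2.2 j0 = Fin.last d) (h2 : ∀ i : Fin d, F.2.2 (j0.succAbove i) = i.castSucc)
    (h3 : F.2.1 j0 = b) (h4 : ∀ i : Fin d, F.2.1 (j0.succAbove i) = false)
    (h5 : (F.1 j0 : ℕ) = if b then MM d K - 1 else 0)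
    (h6 : ∀ i : Fin d, (F.1 (j0.succAbove i) : ℕ) = GG d K i) : F = spec d hK j0 b := by
  apply flag_ext
  · intro j
    rcases Fin.eq_self_or_eq_succAbove j0 j with rfl | ⟨i, rfl⟩
    · rw [h5, spec_y_same]
    · rw [h6, spec_y_above]
  · intro j
    rcases Fin.eq_self_or_eq_succAbove j0 j with rfl | ⟨i, rfl⟩
    · rw [h3, spec_s_same]
    · rw [h4, spec_s_above]
  · ext j
    rcases Fin.eq_self_or_eq_succAbove j0 j with rfl | ⟨i, rfl⟩
    · rw [h1, spec_perm_same]
    · rw [h2, spec_perm_above]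

omit G in
theorem vx_mem {m M : ℕ} (F : Flag m M) (b : ℕ) (j : Fin m) :
    (fcell F b).lo j ≤ vx F j ∧ vx F j ≤ (fcell F b).hi j := by
  simp only [fcell, vx]
  constructor <;> split_ifs <;> omega

omit G in
theorem near_vx {m M : ℕ} {F : Flag m M} {b : ℕ} {x : Fin m → ℕ}
    (hx : ∀ j, (fcell F b).lo j ≤ x j ∧ x j ≤ (fcell F b).hi j) (l : Fin m) :
    x l ≤ vx F l + 1 ∧ vx F l ≤ x l + 1 := by
  have h1 := hx l
  have h2 := vx_mem F b l
  have h3 := (fcell F b).hst l
  omega

omit G in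
theorem eq_vx {m M : ℕ} {F : Flag m M} {x : Fin m → ℕ}
    (hx : ∀ j, (fcell F 0).lo j ≤ x j ∧ x j ≤ (fcell F 0).hi j) : x = vx F := by
  funext l
  have h1 := hx l
  simp only [fcell] at h1
  simp at h1
  omega

omit G in
theorem uu_near (hK : 0 < K) {s s' : ℕ} (h : s ≤ s' + 1) (h' : s' ≤ s + 1) :
    |uu d K s - uu d K s'| ≤ hh d K := by
  rw [abs_le]
  have h1 := (uu_le_iff d hK).2 h
  have h2 := (uu_le_iff d hK).2 h'
  rw [uu_succ] at h1 h2
  constructor <;> linarith

/-- Only special flags count. -/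
theorem Good.vanish {F : Flag (d + 1) (MM d K)} (hB : Bd F) {J : Fin (d + 1) → ℂ}
    (hJ : J ∈ S.labelData.JJ (fcell F 0))
    (hLM : ∀ i : Fin d, S.Lt i (fcell F i) (J i.castSucc) ∧
      S.Mx i (fcell F (i + 1)) (J i.castSucc)) :
    ∃ (j0 : Fin (d + 1)) (b : Bool), (b = true → j0 = Fin.last d) ∧ F = spec d G.pos j0 b := by
  have hK := G.pos
  have hD0 := G.D_nonneg
  have hDle := G.hD
  have hhle := G.hh_le
  have hhpos := hh_pos d hK
  have hgp := gap_pos (d := d)
  rw [gap_small] at hDle hhle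
  set δ := 1 / ((d : ℝ) + 1) with hδ
  set j0 := jl F with hj0
  have hσ0 : F.2.2 j0 = Fin.last d := by simp [hj0, jl]
  have hx0 : vx F j0 = 0 ∨ vx F j0 = MM d K := by
    unfold vx
    rcases hB with ⟨h1, h2⟩ | ⟨h1, h2⟩
    · left; rw [h1, h2]; simp
    · right; rw [h1]; simpa using h2
  have hlo : ∀ b, b ≤ d → (fcell F b).lo j0 = vx F j0 := by
    intro b hb
    simp only [fcell]
    rw [if_neg]
    rw [hσ0, Fin.val_last]
    omega
  have hhi : ∀ b, b ≤ d → (fcell F b).hi j0 = vx F j0 := by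
    intro b hb
    simp only [fcell]
    rw [if_neg]
    rw [hσ0, Fin.val_last]
    omega
  have hv : ∀ b, b ≤ d → (fcell F b).lo j0 = (fcell F b).hi j0 := by
    intro b hb; rw [hlo b hb, hhi b hb]
  have hv' : ∀ b, b ≤ d → (fcell F b).lo j0 = 0 ∨ (fcell F b).lo j0 = MM d K := by
    intro b hb; rw [hlo b hb]; exact hx0
  have hU0 : ∀ j, J j ∈ S.U (fcell F 0) := fun j =>
    S.labelData.lab_subset _ (((S.labelData.mem_JJ).1 hJ).1 j)
  have hUb : ∀ b j, J j ∈ S.U (fcell F b) := fun b j => S.U_mono (fcell_mono F (Nat.zero_le b)) (hU0 j)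
  have hA : ∀ i : Fin d, (J i.castSucc).im < 0 ∧ (J i.castSucc).re ≤ tt d i := by
    intro i
    exact (G.hA i _).1 ((hLM i).1 _ (hUb i _) rfl)
  have hpt : ∀ i : Fin d, ∃ (j : ℕ) (l : Fin (d + 1)), (l : ℕ) < j ∧ V (vx F) j = vx F l ∧
      l ≠ j0 ∧ J i.castSucc = gam d K (vx F l) := by
    intro i
    rcases G.points (hv 0 (Nat.zero_le _)) (hv' 0 (Nat.zero_le _)) (hU0 i.castSucc) with h | h
    · have := (hA i).1
      rw [h] at this
      simp only [pin] at this
      norm_num at this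
    · obtain ⟨x, hx, j, l, h1, h2, h3, h4⟩ := h
      rw [eq_vx hx] at h2 h4
      exact ⟨j, l, h1, h2, h3, h4⟩
  choose jj q hq1 hq2 hq3 hq4 using hpt
  have hre : ∀ i, (J i.castSucc).re = uu d K (vx F (q i)) := by
    intro i
    have := (hA i).1
    rw [hq4 i] at this ⊢
    exact gam_re d this
  have hlow : ∀ i : Fin d, tt d i - S.D < uu d K (vx F (q i)) := by
    intro i
    obtain ⟨_, ⟨w, hw, hw1, hw2⟩⟩ := (hLM i).2
    have hw3 := ((G.hB i w).1 hw2).2
    have hw4 := S.rep_dist hw1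
    have hw5 := re_dist w (J i.castSucc)
    rw [hre i] at hw5
    have hw6 := le_abs_self (w.re - uu d K (vx F (q i)))
    linarith
  have hup : ∀ i : Fin d, uu d K (vx F (q i)) ≤ tt d i := by
    intro i
    rw [← hre i]
    exact (hA i).2
  have hqmono : StrictMono q := by
    intro i i' hii
    by_contra hcon
    push Not at hcon
    have h1 : vx F (q i') ≤ vx F (q i) := by
      rw [← hq2 i]
      apply le_V
      have : (q i' : ℕ) ≤ q i := hcon
      exact lt_of_le_of_lt this (hq1 i)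
    have h2 := (uu_le_iff d hK).2 h1
    have h3 := hlow i'
    have h4 := hup i
    have h5 := tt_gap (d := d) (i := i) (i' := i') hii
    rw [← hδ] at h5
    linarith
  have hqe : q = j0.succAbove := by
    apply (StrictMono.range_inj hqmono (Fin.strictMono_succAbove j0)).1
    rw [Fin.range_succAbove]
    have h1 : Finset.univ.image q = Finset.univ.erase j0 := by
      apply Finset.eq_of_subset_of_card_le
      · intro l hl
        obtain ⟨i, _, rfl⟩ := Finset.mem_image.1 hl
        exact Finset.mem_erase.2 ⟨hq3 i, Finset.mem_univ _⟩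
      · rw [Finset.card_image_of_injective _ hqmono.injective,
          Finset.card_erase_of_mem (Finset.mem_univ _), Finset.card_univ, Finset.card_univ,
          Fintype.card_fin, Fintype.card_fin]
        rfl
    ext l
    simp only [Set.mem_range, Set.mem_compl_iff, Set.mem_singleton_iff]
    constructor
    · rintro ⟨i, rfl⟩
      exact hq3 i
    · intro hl
      have h2 : l ∈ Finset.univ.image q := by
        rw [h1]
        exact Finset.mem_erase.2 ⟨hl, Finset.mem_univ _⟩
      obtain ⟨i, _, hi⟩ := Finset.mem_image.1 h2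
      exact ⟨i, hi⟩
  have hVq : ∀ i, V (vx F) (q i + 1) = vx F (q i) := by
    intro i
    apply le_antisymm
    · rw [← hq2 i]
      apply V_mono
      exact hq1 i
    · exact le_V _ (Nat.lt_succ_self _)
  have hhi1 : ∀ i : Fin d, (fcell F i).hi (q i) ≤ GG d K i := by
    intro i
    set x := Function.update (vx F) (q i) ((fcell F i).hi (q i)) with hx
    have hxm : ∀ j, (fcell F i).lo j ≤ x j ∧ x j ≤ (fcell F i).hi j := by
      intro j
      by_cases hj : j = q i
      · subst hj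
        rw [hx, Function.update_self]
        exact ⟨(fcell F i).hle _, le_rfl⟩
      · rw [hx, Function.update_of_ne hj]
        exact vx_mem F i j
    have hid : (i : ℕ) ≤ d := i.2.le
    have hqd : (q i : ℕ) + 1 ≤ d + 1 := by have := (q i).2; omega
    have hm1 : gam d K (V x (q i + 1)) ∈ S.U (fcell F i) :=
      G.mem_of (hv i hid) (hv' i hid) hxm hqd
    have hdist : dist (gam d K (V x (q i + 1))) (J i.castSucc) ≤ S.η := by
      refine le_trans ?_ G.hη
      rw [hq4 i, ← hVq i]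
      apply gam_step d hK
      · exact V_close (fun l => (near_vx hxm l).1) _
      · exact V_close (fun l => (near_vx hxm l).2) _
    have hrep := S.rep_of_dist hm1 (hUb i _) hdist
    have hA1 := (G.hA i _).1 ((hLM i).1 _ hm1 hrep)
    rw [gam_re d hA1.1, ← uu_GG d hK, uu_le_iff d hK] at hA1
    refine le_trans ?_ hA1.2
    have : x (q i) ≤ V x (q i + 1) := le_V x (Nat.lt_succ_self _)
    rwa [hx, Function.update_self] at this
  have hhi2 : ∀ i : Fin d, GG d K i < (fcell F (i + 1)).hi (q i) := by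
    intro i
    have hid : (i : ℕ) + 1 ≤ d := i.2
    obtain ⟨_, ⟨w, hw, hw1, hw2⟩⟩ := (hLM i).2
    have hw3 := (G.hB i w).1 hw2
    have hw4 := S.rep_dist hw1
    have hw5 := re_dist w (J i.castSucc)
    rcases G.points (hv _ hid) (hv' _ hid) hw with h | ⟨x, hx, j, l, h1, h2, h3, h4⟩
    · have := hw3.1
      rw [h] at this
      simp only [pin] at this
      norm_num at this
    · obtain ⟨i', hi'⟩ := Fin.exists_succAbove_eq h3
      rw [← hqe] at hi'
      have hwre : w.re = uu d K (x l) := by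
        rw [h4]
        apply gam_re d
        rw [← h4]
        exact hw3.1
      have hn := near_vx hx l
      have hn2 := uu_near (d := d) hK hn.1 hn.2
      rw [← hi'] at hn2 hwre
      rw [hre i, hwre] at hw5
      rw [abs_le] at hn2 hw5
      have hi1 : (i : ℕ) = i' := by
        apply tt_inj (d := d)
        rw [abs_lt]
        have := hlow i
        have := hup i
        have := hlow i'
        have := hup i'
        rw [← hδ]
        constructor <;> linarith [hn2.1, hn2.2, hw5.1, hw5.2]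
      have hi2 : i = i' := Fin.ext hi1
      subst hi2
      have h5 := hw3.2
      rw [hwre, ← uu_GG d hK, uu_lt_iff d hK] at h5
      exact lt_of_lt_of_le h5 (hx _).2
  have hfin : ∀ i : Fin d, F.2.2 (q i) = i.castSucc ∧ (F.1 (q i) : ℕ) = GG d K i ∧
      F.2.1 (q i) = false := by
    intro i
    have h1 := hhi1 i
    have h2 := hhi2 i
    simp only [fcell, vx] at h1 h2
    have h3 : (F.2.2 (q i) : ℕ) = i := by
      by_contra hne
      split_ifs at h1 h2 <;> omega
    have h4 : F.2.2 (q i) = i.castSucc := Fin.ext h3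
    rw [h3] at h1 h2
    rw [if_neg (lt_irrefl _)] at h1
    rw [if_pos (Nat.lt_succ_self _)] at h2
    refine ⟨h4, ?_, ?_⟩
    · split_ifs at h1 <;> omega
    · by_contra hs
      rw [Bool.not_eq_false] at hs
      rw [hs] at h1
      simp at h1
      omega
  refine ⟨j0, F.2.1 j0, ?_, ?_⟩
  · intro hb
    by_contra hne
    have hM : vx F j0 = MM d K := by
      rcases hB with ⟨h1, h2⟩ | ⟨h1, h2⟩
      · rw [← hj0, hb] at h1
        exact absurd h1 (by simp)
      · unfold vx
        rw [← hj0] at h1 h2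
        rw [h1]; simpa using h2
    obtain ⟨i, hi⟩ := Fin.exists_succAbove_eq (show Fin.last d ≠ j0 from fun h => hne h.symm)
    rw [← hqe] at hi
    have h1 : vx F j0 ≤ V (vx F) (q i + 1) := by
      apply le_V
      rw [hi, Fin.val_last]
      exact j0.2
    rw [hVq, hM, ← uu_le_iff d hK, uu_MM d hK] at h1
    have h2 := hup i
    have h3 := tt_lt i
    linarith
  · apply eq_spec hK hσ0
    · intro i
      rw [← hqe]
      exact (hfin i).1
    · rfl
    · intro i
      rw [← hqe]
      exact (hfin i).2.2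
    · rcases hB with ⟨h1, h2⟩ | ⟨h1, h2⟩
      · rw [← hj0] at h1 h2
        rw [h1, h2]; simp
      · rw [← hj0] at h1 h2
        rw [h1]
        simp
        omega
    · intro i
      rw [← hqe]
      exact (hfin i).2.1

end

end Pool.Agent.D0H80.Eval
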