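import Pool.Agent.D0H80.Count

set_option autoImplicit false

/-! No uniformly Lipschitz retractions between finite subset spaces of the plane. -/

namespace Pool.Agent.D0H80.Final

open Finset Pool.Agent.D0H80.FlagParity Pool.Agent.D0H80.Clus Pool.Agent.D0H80.Ring
open Pool.Agent.D0H80.Eval

noncomputable section

theorem exists_near {s t : Finset ℂ} (hs : s.Nonempty) (ht : t.Nonempty) {ε : ℝ}
    (h : Metric.hausdorffDist (s : Set ℂ) (t : Set ℂ) < ε) {a : ℂ} (ha : a ∈ s) :
    ∃ b ∈ t, dist a b < ε := by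
  have hfin : Metric.hausdorffEDist (s : Set ℂ) (t : Set ℂ) ≠ ⊤ :=
    Metric.hausdorffEDist_ne_top_of_nonempty_of_bounded (by simpa using hs) (by simpa using ht)
      s.finite_toSet.isBounded t.finite_toSet.isBounded
  obtain ⟨b, hb, hd⟩ := Metric.exists_dist_lt_of_hausdorffDist_lt
    (x := a) (by exact_mod_cast ha) h hfin
  exact ⟨b, by exact_mod_cast hb, hd⟩

theorem no_retraction {C : ℝ} (hC0 : 0 ≤ C) (d : ℕ) (hodd : Odd d) (hd : 64 * C < (d : ℝ) + 1)
    (r : Finset ℂ → Finset ℂ)
    (h1 : ∀ s : Finset ℂ, s.Nonempty → s.card ≤ d + 2 → (r s).Nonempty ∧ (r s).card ≤ d + 1)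
    (h2 : ∀ s : Finset ℂ, s.Nonempty → s.card ≤ d + 1 → r s = s)
    (h3 : ∀ s t : Finset ℂ, s.Nonempty → s.card ≤ d + 2 → t.Nonempty → t.card ≤ d + 2 →
      Metric.hausdorffDist (r s : Set ℂ) (r t : Set ℂ)
        ≤ C * Metric.hausdorffDist (s : Set ℂ) (t : Set ℂ)) : False := by
  set K : ℕ := 16 * ((d + 1) * 2 ^ (d + 2) * ⌈C + 1⌉₊) with hKdef
  have hceil : 1 ≤ ⌈C + 1⌉₊ := by
    rw [Nat.one_le_ceil_iff]
    linarith
  have hK16 : 16 ≤ K := by
    rw [hKdef]
    have : 1 ≤ (d + 1) * 2 ^ (d + 2) * ⌈C + 1⌉₊ := by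
      have : 0 < (d + 1) * 2 ^ (d + 2) * ⌈C + 1⌉₊ := by positivity
      omega
    omega
  have hK : 0 < K := by omega
  have hhpos := hh_pos d hK
  -- the diameter bound
  set Q : ℕ := 2 ^ (d + 1) * (d + 1) with hQ
  set η : ℝ := 2 * hh d K * (C + 1) with hη
  set D : ℝ := (Q : ℝ) * η with hD
  have hDle : D ≤ 1 / (16 * ((d : ℝ) + 1)) := by
    have hKr : (16 : ℝ) * (((d : ℝ) + 1) * 2 ^ (d + 2) * (C + 1)) ≤ K := by
      rw [hKdef]
      push_cast
      have := Nat.le_ceil (C + 1)
      gcongr
    have hKpos : (0 : ℝ) < K := by exact_mod_cast hK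
    have e : D = 2 ^ (d + 2) * (C + 1) / K := by
      rw [hD, hη, hQ]
      unfold hh
      push_cast
      field_simp
      ring
    rw [e, div_le_div_iff₀ hKpos (by positivity)]
    calc 2 ^ (d + 2) * (C + 1) * (16 * ((d : ℝ) + 1))
        = (16 : ℝ) * (((d : ℝ) + 1) * 2 ^ (d + 2) * (C + 1)) := by ring
      _ ≤ K := hKr
      _ = 1 * K := by ring
  have hD0 : 0 ≤ D := by positivity
  have hD16 : D ≤ 1 / 16 := by
    refine hDle.trans ?_
    apply one_div_le_one_div_of_le (by norm_num)
    have : (0 : ℝ) ≤ d := Nat.cast_nonneg d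
    linarith
  -- points of `r (AA x)` are near the ring
  have hnear : ∀ x : Fin (d + 1) → ℕ, (∀ j, x j ≤ MM d K) → ∀ a ∈ r (AA d K x), 3 / 2 ≤ N1 a := by
    intro x hx a ha
    obtain ⟨B, hB1, hB2, hB3, hB4⟩ := AA_approx d hK hx
    have hA1 := AA_nonempty d (K := K) x
    have hA2 := AA_card d (K := K) x
    have e1 : Metric.hausdorffDist (AA d K x : Set ℂ) (B : Set ℂ) ≤ 16 / ((d : ℝ) + 1) := by
      apply Metric.hausdorffDist_le_of_mem_dist (by positivity)
      · intro a ha
        obtain ⟨b, hb, hab⟩ := hB4 a (by exact_mod_cast ha)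
        exact ⟨b, by exact_mod_cast hb, hab⟩
      · intro b hb
        exact ⟨b, by exact_mod_cast hB3 (by exact_mod_cast hb), by rw [dist_self]; positivity⟩
    have e2 := h3 (AA d K x) B hA1 hA2 hB1 (by omega)
    rw [h2 B hB1 hB2] at e2
    have e3 : Metric.hausdorffDist (r (AA d K x) : Set ℂ) (B : Set ℂ) < 1 / 4 := by
      refine lt_of_le_of_lt e2 ?_
      refine lt_of_le_of_lt (mul_le_mul_of_nonneg_left e1 hC0) ?_
      rw [← mul_div_assoc, div_lt_iff₀ (by positivity)]
      linarith
    obtain ⟨b, hb, hab⟩ := exists_near (h1 _ hA1 hA2).1 hB1 e3 ha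
    have e4 := AA_N1 d hK hx (hB3 hb)
    have e5 := N1_lip b a
    rw [dist_comm] at e5
    linarith
  let S : Net d (MM d K) :=
    { Y := fun x => r (AA d K x)
      η := η
      D := D
      A := fun i z => z.im < 0 ∧ z.re ≤ tt d i
      B := fun i z => z.im < 0 ∧ tt d i < z.re
      hη := by positivity
      hD := by rw [hD, hQ]
      card_le := fun x _ => (h1 _ (AA_nonempty d x) (AA_card d x)).2
      close := by
        intro x x' hx hx' hxx hxx' a ha
        have e1 : Metric.hausdorffDist (AA d K x : Set ℂ) (AA d K x' : Set ℂ) ≤ 2 * hh d K := by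
          apply Metric.hausdorffDist_le_of_mem_dist (by positivity)
          · intro a ha
            obtain ⟨b, hb, hab⟩ := AA_close d hK hxx hxx' (a := a) (by exact_mod_cast ha)
            exact ⟨b, by exact_mod_cast hb, hab⟩
          · intro a ha
            obtain ⟨b, hb, hab⟩ := AA_close d hK hxx' hxx (a := a) (by exact_mod_cast ha)
            exact ⟨b, by exact_mod_cast hb, hab⟩
        have e2 := h3 _ _ (AA_nonempty d (K := K) x) (AA_card d x) (AA_nonempty d (K := K) x')
          (AA_card d x')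
        have e3 : Metric.hausdorffDist (r (AA d K x) : Set ℂ) (r (AA d K x') : Set ℂ) < η := by
          refine lt_of_le_of_lt e2 ?_
          refine lt_of_le_of_lt (mul_le_mul_of_nonneg_left e1 hC0) ?_
          rw [hη]
          nlinarith
        obtain ⟨b, hb, hab⟩ := exists_near (h1 _ (AA_nonempty d x) (AA_card d x)).1
          (h1 _ (AA_nonempty d x') (AA_card d x')).1 e3 ha
        exact ⟨b, hb, hab.le⟩
      sep := by
        intro i x hx a ha b o hAa hBb hAo hBo hab hao
        have e1 := hnear x hx a ha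
        have e2 : 0 ≤ o.im := by
          by_contra hcon
          push Not at hcon
          rcases le_or_gt o.re (tt d i) with h | h
          · exact hAo ⟨hcon, h⟩
          · exact hBo ⟨hcon, h⟩
        have e3 := re_dist a b
        have e4 := im_dist a o
        rw [abs_le] at e3 e4
        have e5 := tt_nonneg (d := d) i
        have e6 := tt_lt i
        have e7 := gap_pos (d := d)
        unfold N1 at e1
        have e8 : |a.im| ≤ 1 / 16 := by
          rw [abs_le]
          constructor <;> linarith [e4.1, e4.2, hAa.1]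
        have e9 : |a.re| ≤ 1 + 1 / 16 := by
          rw [abs_le]
          constructor <;> linarith [e3.1, e3.2, hAa.2, hBb.2]
        linarith
      disj := by
        intro i z hA hB
        exact absurd hA.2 (not_le.2 hB.2) }
  have G : Good d K S :=
    { hK := hK16
      hA := fun _ _ => Iff.rfl
      hB := fun _ _ => Iff.rfl
      hY := by
        intro x hx hbd
        obtain ⟨j, hj⟩ := hbd
        exact h2 _ (AA_nonempty d x) (AA_card_bd d hK hx hj)
      hη := by
        change 2 * hh d K ≤ η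
        rw [hη]
        nlinarith
      hD := hDle }
  have htot := G.total
  rw [ZMod.natCast_eq_zero_iff] at htot
  obtain ⟨k, hk⟩ := hodd
  omega

end

end Pool.Agent.D0H80.Final
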