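import Mathlib

set_option autoImplicit false

/-! Parity of label counts on boundary flags of a cubical grid. -/

namespace Pool.Agent.D0H80.FlagParity

open Finset

/-! ### The cup product identity -/

/-- the `a`-th face map on indices -/
def dl (a i : ℕ) : ℕ := if i < a then i else i + 1

theorem dl_mono (a : ℕ) : Monotone (dl a) := by
  intro i j hij
  unfold dl
  split_ifs <;> omega

theorem dl_ne (a i : ℕ) : dl a i ≠ a := by
  unfold dl
  split_ifs <;> omega

theorem cup_identity (d : ℕ) (e : Fin d → ℕ → ℕ → ZMod 2)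
    (he : ∀ i j k l, j ≤ k → k ≤ l → e i j l = e i j k + e i k l) :
    ∑ a ∈ range (d + 2), ∏ i : Fin d, e i (dl a i) (dl a (i + 1)) = 0 := by
  set T : ℕ → ZMod 2 := fun a => ∏ i : Fin d,
    (if (i : ℕ) < a then e i i (i + 1) else e i (i + 1) (i + 2)) with hT
  have h2 : ∀ z : ZMod 2, z + z = 0 := by decide
  have hP0 : ∏ i : Fin d, e i (dl 0 i) (dl 0 (i + 1)) = T 0 := by
    simp [hT, dl]
  have hPd : ∏ i : Fin d, e i (dl (d + 1) i) (dl (d + 1) (i + 1)) = T d := by
    simp only [hT]
    apply Finset.prod_congr rfl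
    intro i _
    have := i.2
    have h1 : dl (d + 1) i = i := by unfold dl; split_ifs <;> omega
    have h3 : dl (d + 1) (i + 1) = i + 1 := by unfold dl; split_ifs <;> omega
    rw [h1, h3, if_pos this]
  have hPb : ∀ b ∈ range d, ∏ i : Fin d, e i (dl (b + 1) i) (dl (b + 1) (i + 1))
      = T (b + 1) + T b := by
    intro b hb
    have hb' : b < d := by simpa using hb
    simp only [hT]
    symm
    apply Finset.prod_add_prod_eq (i := (⟨b, hb'⟩ : Fin d)) (Finset.mem_univ _)
    · have h1 : dl (b + 1) b = b := by unfold dl; split_ifs <;> omega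
      have h3 : dl (b + 1) (b + 1) = b + 2 := by unfold dl; split_ifs <;> omega
      simp only [h1, h3]
      rw [if_pos (by omega), if_neg (by omega)]
      exact (he _ b (b + 1) (b + 2) (by omega) (by omega)).symm
    · intro j _ hj
      have hj' : (j : ℕ) ≠ b := fun h => hj (Fin.ext h)
      by_cases hlt : (j : ℕ) < b
      · have h1 : dl (b + 1) j = j := by unfold dl; split_ifs <;> omega
        have h3 : dl (b + 1) (j + 1) = j + 1 := by unfold dl; split_ifs <;> omega
        rw [h1, h3, if_pos (by omega)]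
      · have h1 : dl (b + 1) j = j + 1 := by unfold dl; split_ifs <;> omega
        have h3 : dl (b + 1) (j + 1) = j + 2 := by unfold dl; split_ifs <;> omega
        rw [h1, h3, if_neg (by omega)]
    · intro j _ hj
      have hj' : (j : ℕ) ≠ b := fun h => hj (Fin.ext h)
      by_cases hlt : (j : ℕ) < b
      · have h1 : dl (b + 1) j = j := by unfold dl; split_ifs <;> omega
        have h3 : dl (b + 1) (j + 1) = j + 1 := by unfold dl; split_ifs <;> omega
        rw [h1, h3, if_pos (by omega)]
      · have h1 : dl (b + 1) j = j + 1 := by unfold dl; split_ifs <;> omega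
        have h3 : dl (b + 1) (j + 1) = j + 2 := by unfold dl; split_ifs <;> omega
        rw [h1, h3, if_neg (by omega)]
  rw [Finset.sum_range_succ, hPd, Finset.sum_range_succ', hP0, Finset.sum_congr rfl hPb]
  have htel : ∀ n : ℕ, ∑ b ∈ range n, (T (b + 1) + T b) = T n + T 0 := by
    intro n
    induction n with
    | zero => simp [h2]
    | succ n ih =>
      rw [Finset.sum_range_succ, ih]
      have := h2 (T n)
      calc T n + T 0 + (T (n + 1) + T n) = (T n + T n) + (T (n + 1) + T 0) := by ring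
        _ = T (n + 1) + T 0 := by rw [this, zero_add]
  rw [htel]
  calc T d + T 0 + T 0 + T d = (T d + T d) + (T 0 + T 0) := by ring
    _ = 0 := by rw [h2, h2, add_zero]

/-! ### Label data over a preorder -/

/-- Label data: finite sets `U τ` with clusters, and gate cochains. -/
structure LabelData (P E : Type) [Preorder P] [DecidableEq E] (d : ℕ) where
  U : P → Finset E
  rep : P → E → E
  c : Fin d → E → P → P → ZMod 2
  rep_mem : ∀ τ, ∀ z ∈ U τ, rep τ z ∈ U τ
  rep_rep : ∀ τ τ', τ ≤ τ' → ∀ z, rep τ' (rep τ z) = rep τ' z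
  mono : ∀ τ τ', τ ≤ τ' → U τ ⊆ U τ'
  surj : ∀ τ τ', τ ≤ τ' → ∀ z' ∈ U τ', ∃ z ∈ U τ, rep τ' z = rep τ' z'
  card_le : ∀ τ, ((U τ).image (rep τ)).card ≤ d + 1
  c_rep : ∀ τ τ', τ ≤ τ' → ∀ i, ∀ z ∈ U τ, c i (rep τ z) τ τ' = c i z τ τ'
  c_add : ∀ τ τ' τ'', τ ≤ τ' → τ' ≤ τ'' → ∀ i, ∀ z ∈ U τ,
    c i z τ τ'' = c i z τ τ' + c i z τ' τ''

namespace LabelData

variable {P E : Type} [Preorder P] [DecidableEq E] {d : ℕ} (L : LabelData P E d)

/-- the labels of `τ` -/
def lab (τ : P) : Finset E := (L.U τ).image (L.rep τ)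

/-- injective labelings -/
def JJ (τ : P) : Finset (Fin (d + 1) → E) :=
  (Fintype.piFinset (fun _ : Fin (d + 1) => L.lab τ)).filter Function.Injective

theorem mem_JJ {τ : P} {J : Fin (d + 1) → E} :
    J ∈ L.JJ τ ↔ (∀ i, J i ∈ L.lab τ) ∧ Function.Injective J := by
  simp [JJ]

theorem lab_subset (τ : P) : L.lab τ ⊆ L.U τ := by
  intro z hz
  obtain ⟨w, hw, rfl⟩ := Finset.mem_image.1 hz
  exact L.rep_mem τ w hw

theorem rep_self {τ : P} {z : E} (hz : z ∈ L.lab τ) : L.rep τ z = z := by
  obtain ⟨w, hw, rfl⟩ := Finset.mem_image.1 hz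
  exact L.rep_rep τ τ le_rfl w

theorem rep_mem_lab {τ : P} {z : E} (hz : z ∈ L.U τ) : L.rep τ z ∈ L.lab τ :=
  Finset.mem_image_of_mem _ hz

theorem lemma_A {τ τ' : P} (h : τ ≤ τ') (f : (Fin (d + 1) → E) → ZMod 2)
    (hf : ∀ J ∈ L.JJ τ, f J = f (fun i => L.rep τ' (J i))) :
    ∑ J ∈ L.JJ τ, f J = ∑ J ∈ L.JJ τ', f J := by
  have hmap : ∀ z ∈ L.lab τ, L.rep τ' z ∈ L.lab τ' := fun z hz =>
    L.rep_mem_lab (L.mono τ τ' h (L.lab_subset τ hz))
  have hsurj : ∀ z' ∈ L.lab τ', ∃ z ∈ L.lab τ, L.rep τ' z = z' := by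
    intro z' hz'
    obtain ⟨z, hz, hzz⟩ := L.surj τ τ' h z' (L.lab_subset τ' hz')
    refine ⟨L.rep τ z, L.rep_mem_lab hz, ?_⟩
    rw [L.rep_rep τ τ' h, hzz, L.rep_self hz']
  have himg : (L.lab τ).image (L.rep τ') = L.lab τ' := by
    apply Finset.Subset.antisymm
    · intro z hz
      obtain ⟨w, hw, rfl⟩ := Finset.mem_image.1 hz
      exact hmap w hw
    · intro z hz
      obtain ⟨w, hw, hwz⟩ := hsurj z hz
      exact Finset.mem_image.2 ⟨w, hw, hwz⟩
  by_cases hc : (L.lab τ').card = d + 1
  · -- bijection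
    have hcard : (L.lab τ).card = d + 1 := by
      apply le_antisymm (L.card_le τ)
      rw [← hc, ← himg]
      exact Finset.card_image_le
    have hinj : Set.InjOn (L.rep τ') (L.lab τ : Set E) := by
      apply Finset.injOn_of_card_image_eq
      rw [himg, hc, hcard]
    apply Finset.sum_bij (fun J _ => fun i => L.rep τ' (J i))
    · intro J hJ
      rw [mem_JJ] at hJ ⊢
      refine ⟨fun i => hmap _ (hJ.1 i), fun i j hij => ?_⟩
      exact hJ.2 (hinj (hJ.1 i) (hJ.1 j) hij)
    · intro J hJ J' hJ' hJJ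
      rw [mem_JJ] at hJ hJ'
      funext i
      exact hinj (hJ.1 i) (hJ'.1 i) (congrFun hJJ i)
    · intro J' hJ'
      rw [mem_JJ] at hJ'
      have : ∀ i, ∃ z ∈ L.lab τ, L.rep τ' z = J' i := fun i => hsurj _ (hJ'.1 i)
      choose J hJ hJJ using this
      refine ⟨J, ?_, ?_⟩
      · rw [mem_JJ]
        refine ⟨hJ, fun i j hij => hJ'.2 ?_⟩
        rw [← hJJ i, ← hJJ j, hij]
      · funext i
        exact hJJ i
    · intro J hJ
      exact hf J hJ
  · -- both sums vanish
    have hlt : (L.lab τ').card < d + 1 := lt_of_le_of_ne (L.card_le τ') hc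
    have hempty : L.JJ τ' = ∅ := by
      apply Finset.eq_empty_of_forall_notMem
      intro J hJ
      rw [mem_JJ] at hJ
      have hsub : Finset.univ.image J ⊆ L.lab τ' := by
        intro z hz
        obtain ⟨i, _, rfl⟩ := Finset.mem_image.1 hz
        exact hJ.1 i
      have := Finset.card_le_card hsub
      rw [Finset.card_image_of_injective _ hJ.2, Finset.card_univ, Fintype.card_fin] at this
      omega
    rw [hempty, Finset.sum_empty]
    by_cases hJe : (L.JJ τ).Nonempty
    · obtain ⟨J0, hJ0⟩ := hJe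
      have hcard' : ∀ J ∈ L.JJ τ, Finset.univ.image J = L.lab τ := by
        intro J hJ
        rw [mem_JJ] at hJ
        apply Finset.eq_of_subset_of_card_le
        · intro z hz
          obtain ⟨i, _, rfl⟩ := Finset.mem_image.1 hz
          exact hJ.1 i
        · rw [Finset.card_image_of_injective _ hJ.2, Finset.card_univ, Fintype.card_fin]
          exact L.card_le τ
      have hcardτ : (L.lab τ).card = d + 1 := by
        rw [← hcard' J0 hJ0, Finset.card_image_of_injective _ ((L.mem_JJ).1 hJ0).2,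
          Finset.card_univ, Fintype.card_fin]
      obtain ⟨p, hp, q, hq, hpq, hrep⟩ :=
        Finset.exists_ne_map_eq_of_card_lt_of_maps_to (s := L.lab τ) (t := L.lab τ')
          (by omega) (f := L.rep τ') (fun z hz => hmap z hz)
      have hswap : ∀ z, L.rep τ' (Equiv.swap p q z) = L.rep τ' z := by
        intro z
        by_cases h1 : z = p
        · subst h1; rw [Equiv.swap_apply_left, hrep]
        · by_cases h3 : z = q
          · subst h3; rw [Equiv.swap_apply_right, hrep]
          · rw [Equiv.swap_apply_of_ne_of_ne h1 h3]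
      have hswm : ∀ z ∈ L.lab τ, Equiv.swap p q z ∈ L.lab τ := by
        intro z hz
        by_cases h1 : z = p
        · subst h1; rw [Equiv.swap_apply_left]; exact hq
        · by_cases h3 : z = q
          · subst h3; rw [Equiv.swap_apply_right]; exact hp
          · rw [Equiv.swap_apply_of_ne_of_ne h1 h3]; exact hz
      have hmem : ∀ J ∈ L.JJ τ, (fun i => Equiv.swap p q (J i)) ∈ L.JJ τ := by
        intro J hJ
        rw [mem_JJ] at hJ ⊢
        exact ⟨fun i => hswm _ (hJ.1 i), fun i j hij => hJ.2 ((Equiv.swap p q).injective hij)⟩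
      apply Finset.sum_involution (fun J _ => fun i => Equiv.swap p q (J i))
      · intro J hJ
        have h1 := hf J hJ
        have h3 := hf _ (hmem J hJ)
        have h4 : f (fun i => Equiv.swap p q (J i)) = f J := by
          rw [h3, h1]
          congr 1
          funext i
          exact hswap _
        rw [h4]
        exact (by decide : ∀ z : ZMod 2, z + z = 0) _
      · intro J hJ _ hfix
        have hpm : p ∈ Finset.univ.image J := by rw [hcard' J hJ]; exact hp
        obtain ⟨i, _, hi⟩ := Finset.mem_image.1 hpm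
        have := congrFun hfix i
        simp only [hi, Equiv.swap_apply_left] at this
        exact hpq this.symm
      · intro J hJ
        exact hmem J hJ
      · intro J hJ
        funext i
        simp
    · rw [Finset.not_nonempty_iff_eq_empty] at hJe
      rw [hJe, Finset.sum_empty]

/-- The label count of a chain. -/
def N (G : ℕ → P) : ZMod 2 :=
  ∑ J ∈ L.JJ (G 0), ∏ i : Fin d, L.c i (J i.castSucc) (G i) (G (i + 1))

theorem N_congr {G G' : ℕ → P} (h : ∀ i, i ≤ d → G i = G' i) : L.N G = L.N G' := by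
  unfold N
  rw [h 0 (Nat.zero_le _)]
  apply Finset.sum_congr rfl
  intro J _
  apply Finset.prod_congr rfl
  intro i _
  rw [h i (by omega), h (i + 1) (by omega)]

theorem cocycle (G : ℕ → P) (hG : Monotone G) :
    ∑ a ∈ range (d + 2), L.N (fun i => G (dl a i)) = 0 := by
  have h0 : L.N (fun i => G (dl 0 i))
      = ∑ J ∈ L.JJ (G 0), ∏ i : Fin d, L.c i (J i.castSucc) (G (dl 0 i)) (G (dl 0 (i + 1))) := by
    unfold N
    have e0 : dl 0 0 = 1 := by simp [dl]
    simp only [e0]
    symm
    apply L.lemma_A (hG (by omega))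
    intro J hJ
    apply Finset.prod_congr rfl
    intro i _
    have hz : J i.castSucc ∈ L.U (G 0) := L.lab_subset _ ((L.mem_JJ.1 hJ).1 _)
    have e1 : dl 0 (i : ℕ) = i + 1 := by simp [dl]
    have e2 : dl 0 ((i : ℕ) + 1) = i + 2 := by simp [dl]
    rw [e1, e2]
    have hle : G (i + 1) ≤ G (i + 2) := hG (by omega)
    have hz1 : J i.castSucc ∈ L.U (G (i + 1)) := L.mono _ _ (hG (by omega)) hz
    have hz2 : L.rep (G 1) (J i.castSucc) ∈ L.U (G (i + 1)) :=
      L.mono _ _ (hG (by omega)) (L.rep_mem _ _ (L.mono _ _ (hG (by omega)) hz))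
    rw [← L.c_rep _ _ hle i _ hz1, ← L.c_rep _ _ hle i _ hz2,
      L.rep_rep (G 1) (G (i + 1)) (hG (by omega))]
  have hall : ∀ a ∈ range (d + 2), L.N (fun i => G (dl a i))
      = ∑ J ∈ L.JJ (G 0), ∏ i : Fin d, L.c i (J i.castSucc) (G (dl a i)) (G (dl a (i + 1))) := by
    intro a _
    rcases Nat.eq_zero_or_pos a with ha | ha
    · subst ha; exact h0
    · unfold N
      have e0 : dl a 0 = 0 := by simp [dl, ha]
      simp only [e0]
  rw [Finset.sum_congr rfl hall, Finset.sum_comm]
  apply Finset.sum_eq_zero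
  intro J hJ
  apply cup_identity d (fun i j l => L.c i (J i.castSucc) (G j) (G l))
  intro i j k l hjk hkl
  have hz : J i.castSucc ∈ L.U (G 0) := L.lab_subset _ ((L.mem_JJ.1 hJ).1 _)
  exact L.c_add _ _ _ (hG hjk) (hG hkl) i _ (L.mono _ _ (hG (Nat.zero_le _)) hz)

end LabelData

/-! ### Cells and flags of the cubical grid -/

/-- a cell of the grid `[0, M]^m` -/
@[ext] structure Cell (m M : ℕ) where
  lo : Fin m → ℕ
  hi : Fin m → ℕ
  hle : ∀ j, lo j ≤ hi j
  hst : ∀ j, hi j ≤ lo j + 1
  hM : ∀ j, hi j ≤ M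

instance (m M : ℕ) : Preorder (Cell m M) where
  le c c' := ∀ j, c'.lo j ≤ c.lo j ∧ c.hi j ≤ c'.hi j
  le_refl c := fun j => ⟨le_rfl, le_rfl⟩
  le_trans a b c hab hbc := fun j => ⟨(hbc j).1.trans (hab j).1, (hab j).2.trans (hbc j).2⟩

theorem Cell.le_def {m M : ℕ} (c c' : Cell m M) :
    c ≤ c' ↔ ∀ j, c'.lo j ≤ c.lo j ∧ c.hi j ≤ c'.hi j := Iff.rfl

/-- flags of cells: base corner `y`, vertex choice `s`, order of opening `σ` -/
abbrev Flag (m M : ℕ) := (Fin m → Fin M) × (Fin m → Bool) × Equiv.Perm (Fin m)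

/-- the vertex coordinate of a flag -/
def vx {m M : ℕ} (F : Flag m M) (j : Fin m) : ℕ := (F.1 j : ℕ) + (if F.2.1 j then 1 else 0)

/-- the `a`-dimensional cell of a flag -/
def fcell {m M : ℕ} (F : Flag m M) (a : ℕ) : Cell m M where
  lo j := if (F.2.2 j : ℕ) < a then (F.1 j : ℕ) else vx F j
  hi j := if (F.2.2 j : ℕ) < a then (F.1 j : ℕ) + 1 else vx F j
  hle j := by split_ifs <;> omega
  hst j := by split_ifs <;> omega
  hM j := by
    have := (F.1 j).2
    unfold vx
    split_ifs <;> omega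

theorem fcell_mono {m M : ℕ} (F : Flag m M) : Monotone (fcell F) := by
  intro a b hab j
  simp only [fcell, vx]
  constructor <;> split_ifs <;> omega

variable {E : Type} [DecidableEq E] {d M : ℕ}

/-- the last opened coordinate -/
def jl (F : Flag (d + 1) M) : Fin (d + 1) := F.2.2.symm (Fin.last d)

/-- boundary flags -/
def Bd (F : Flag (d + 1) M) : Prop :=
  (F.2.1 (jl F) = false ∧ (F.1 (jl F) : ℕ) = 0) ∨
    (F.2.1 (jl F) = true ∧ (F.1 (jl F) : ℕ) + 1 = M)

instance (F : Flag (d + 1) M) : Decidable (Bd F) := by unfold Bd; infer_instance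

theorem fcell_ext {m M : ℕ} {F F' : Flag m M} {b : ℕ}
    (h : ∀ j, ((F.2.2 j : ℕ) < b ∧ (F'.2.2 j : ℕ) < b ∧ (F.1 j : ℕ) = F'.1 j) ∨
      (¬ (F.2.2 j : ℕ) < b ∧ ¬ (F'.2.2 j : ℕ) < b ∧ vx F j = vx F' j)) :
    fcell F b = fcell F' b := by
  ext j
  · simp only [fcell]
    rcases h j with ⟨h1, h2, h3⟩ | ⟨h1, h2, h3⟩
    · rw [if_pos h1, if_pos h2, h3]
    · rw [if_neg h1, if_neg h2, h3]
  · simp only [fcell]
    rcases h j with ⟨h1, h2, h3⟩ | ⟨h1, h2, h3⟩
    · rw [if_pos h1, if_pos h2, h3]
    · rw [if_neg h1, if_neg h2, h3]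

/-- flip the vertex along the first opened coordinate -/
def flip0 (F : Flag (d + 1) M) : Flag (d + 1) M :=
  (F.1, Function.update F.2.1 (F.2.2.symm 0) (!(F.2.1 (F.2.2.symm 0))), F.2.2)

theorem flip0_flip0 (F : Flag (d + 1) M) : flip0 (flip0 F) = F := by
  simp [flip0]

theorem flip0_ne (F : Flag (d + 1) M) : flip0 F ≠ F := by
  intro h
  have h1 := congrArg (fun G : Flag (d + 1) M => G.2.1 (F.2.2.symm 0)) h
  simp [flip0] at h1

theorem fcell_flip0 (F : Flag (d + 1) M) (b : ℕ) (hb : b ≠ 0) :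
    fcell (flip0 F) b = fcell F b := by
  apply fcell_ext
  intro j
  by_cases hj : j = F.2.2.symm 0
  · left
    subst hj
    simp [flip0]
    omega
  · by_cases h1 : (F.2.2 j : ℕ) < b
    · left
      simp [flip0, h1]
    · right
      have h2 : (flip0 F).2.1 j = F.2.1 j := by simp [flip0, Function.update_of_ne hj]
      refine ⟨h1, h1, ?_⟩
      unfold vx
      rw [h2]
      rfl

/-- exchange two consecutive steps -/
def flipm (p q : Fin (d + 1)) (F : Flag (d + 1) M) : Flag (d + 1) M :=
  (F.1, F.2.1, F.2.2.trans (Equiv.swap p q))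

theorem flipm_flipm (p q : Fin (d + 1)) (F : Flag (d + 1) M) : flipm p q (flipm p q F) = F := by
  unfold flipm
  simp only
  ext j
  · rfl
  · rfl
  · simp

theorem flipm_ne {p q : Fin (d + 1)} (hpq : p ≠ q) (F : Flag (d + 1) M) : flipm p q F ≠ F := by
  intro h
  have h1 := congrArg (fun G : Flag (d + 1) M => G.2.2 (F.2.2.symm p)) h
  simp [flipm] at h1
  exact hpq h1.symm

theorem fcell_flipm {p q : Fin (d + 1)} (hpq : (p : ℕ) + 1 = q) (F : Flag (d + 1) M) (b : ℕ)
    (hb : b ≠ q) : fcell (flipm p q F) b = fcell F b := by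
  apply fcell_ext
  intro j
  have key : (((Equiv.swap p q) (F.2.2 j) : Fin (d + 1)) : ℕ) < b ↔ (F.2.2 j : ℕ) < b := by
    by_cases h1 : F.2.2 j = p
    · rw [h1, Equiv.swap_apply_left]
      constructor <;> intro h <;> omega
    · by_cases h2 : F.2.2 j = q
      · rw [h2, Equiv.swap_apply_right]
        constructor <;> intro h <;> omega
      · rw [Equiv.swap_apply_of_ne_of_ne h1 h2]
  by_cases h1 : (F.2.2 j : ℕ) < b
  · left
    exact ⟨key.2 h1, h1, rfl⟩
  · right
    exact ⟨fun h => h1 (key.1 h), h1, rfl⟩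

/-- move the top cell across the facet -/
def flipl (F : Flag (d + 1) M) : Flag (d + 1) M :=
  if h : F.2.1 (jl F) = false then
    (Function.update F.1 (jl F) ⟨(F.1 (jl F) : ℕ) - 1, by have := (F.1 (jl F)).2; omega⟩,
      Function.update F.2.1 (jl F) true, F.2.2)
  else
    (Function.update F.1 (jl F) ⟨((F.1 (jl F) : ℕ) + 1) % M, Nat.mod_lt _ (by
        have := (F.1 (jl F)).2; omega)⟩,
      Function.update F.2.1 (jl F) false, F.2.2)

theorem jl_eq {F F' : Flag (d + 1) M} (h : F.2.2 = F'.2.2) : jl F = jl F' := by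
  unfold jl; rw [h]

theorem flipl_perm (F : Flag (d + 1) M) : (flipl F).2.2 = F.2.2 := by
  unfold flipl
  split_ifs <;> rfl

theorem flipl_false {F : Flag (d + 1) M} (h : F.2.1 (jl F) = false) (hB : ¬ Bd F) :
    (∀ j, j ≠ jl F → (flipl F).1 j = F.1 j ∧ (flipl F).2.1 j = F.2.1 j) ∧
      (flipl F).2.1 (jl F) = true ∧ ((flipl F).1 (jl F) : ℕ) + 1 = F.1 (jl F) := by
  have h1 : (F.1 (jl F) : ℕ) ≠ 0 := by
    intro h0
    exact hB (Or.inl ⟨h, h0⟩)
  unfold flipl
  rw [dif_pos h]
  refine ⟨fun j hj => ?_, ?_, ?_⟩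
  · simp [Function.update_of_ne hj]
  · simp
  · simp
    omega

theorem flipl_true {F : Flag (d + 1) M} (h : F.2.1 (jl F) = true) (hB : ¬ Bd F) :
    (∀ j, j ≠ jl F → (flipl F).1 j = F.1 j ∧ (flipl F).2.1 j = F.2.1 j) ∧
      (flipl F).2.1 (jl F) = false ∧ ((flipl F).1 (jl F) : ℕ) = F.1 (jl F) + 1 := by
  have h1 : (F.1 (jl F) : ℕ) + 1 ≠ M := by
    intro h0
    exact hB (Or.inr ⟨h, h0⟩)
  have h2 := (F.1 (jl F)).2
  unfold flipl
  rw [dif_neg (by simp [h])]
  refine ⟨fun j hj => ?_, ?_, ?_⟩
  · simp [Function.update_of_ne hj]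
  · simp
  · simp
    exact Nat.mod_eq_of_lt (by omega)

theorem flag_ext {F F' : Flag (d + 1) M} (h1 : ∀ j, (F.1 j : ℕ) = F'.1 j)
    (h2 : ∀ j, F.2.1 j = F'.2.1 j) (h3 : F.2.2 = F'.2.2) : F = F' := by
  refine Prod.ext ?_ (Prod.ext ?_ h3)
  · funext j
    exact Fin.ext (h1 j)
  · funext j
    exact h2 j

theorem flipl_bd {F : Flag (d + 1) M} (hB : ¬ Bd F) : ¬ Bd (flipl F) := by
  have hj : jl (flipl F) = jl F := jl_eq (flipl_perm F)
  have h2 := (F.1 (jl F)).2
  cases h : F.2.1 (jl F) with
  | false =>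
    obtain ⟨h3, h4, h5⟩ := flipl_false h hB
    intro hb
    unfold Bd at hb
    rw [hj, h4] at hb
    rcases hb with ⟨hb, _⟩ | ⟨_, hb⟩
    · exact absurd hb (by simp)
    · omega
  | true =>
    obtain ⟨h3, h4, h5⟩ := flipl_true h hB
    intro hb
    unfold Bd at hb
    rw [hj, h4] at hb
    rcases hb with ⟨_, hb⟩ | ⟨hb, _⟩
    · omega
    · exact absurd hb (by simp)

theorem flipl_ne {F : Flag (d + 1) M} (hB : ¬ Bd F) : flipl F ≠ F := by
  intro hf
  cases h : F.2.1 (jl F) with
  | false =>
    have := (flipl_false h hB).2.1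
    rw [hf, h] at this
    exact absurd this (by simp)
  | true =>
    have := (flipl_true h hB).2.1
    rw [hf, h] at this
    exact absurd this (by simp)

theorem flipl_flipl {F : Flag (d + 1) M} (hB : ¬ Bd F) : flipl (flipl F) = F := by
  have hj : jl (flipl F) = jl F := jl_eq (flipl_perm F)
  have hB' := flipl_bd hB
  have hperm : (flipl (flipl F)).2.2 = F.2.2 := by rw [flipl_perm, flipl_perm]
  cases h : F.2.1 (jl F) with
  | false =>
    obtain ⟨h3, h4, h5⟩ := flipl_false h hB
    have h4' : (flipl F).2.1 (jl (flipl F)) = true := by rw [hj]; exact h4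
    obtain ⟨h6, h7, h8⟩ := flipl_true h4' hB'
    rw [hj] at h6 h7 h8
    apply flag_ext _ _ hperm
    · intro j
      by_cases hjj : j = jl F
      · subst hjj; omega
      · rw [(h6 j hjj).1, (h3 j hjj).1]
    · intro j
      by_cases hjj : j = jl F
      · subst hjj; rw [h7, h]
      · rw [(h6 j hjj).2, (h3 j hjj).2]
  | true =>
    obtain ⟨h3, h4, h5⟩ := flipl_true h hB
    have h4' : (flipl F).2.1 (jl (flipl F)) = false := by rw [hj]; exact h4
    obtain ⟨h6, h7, h8⟩ := flipl_false h4' hB'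
    rw [hj] at h6 h7 h8
    apply flag_ext _ _ hperm
    · intro j
      by_cases hjj : j = jl F
      · subst hjj; omega
      · rw [(h6 j hjj).1, (h3 j hjj).1]
    · intro j
      by_cases hjj : j = jl F
      · subst hjj; rw [h7, h]
      · rw [(h6 j hjj).2, (h3 j hjj).2]

theorem fcell_flipl {F : Flag (d + 1) M} (hB : ¬ Bd F) (b : ℕ) (hb : b ≤ d) :
    fcell (flipl F) b = fcell F b := by
  apply fcell_ext
  intro j
  rw [flipl_perm]
  by_cases hjj : j = jl F
  · right
    have h1 : (F.2.2 j : ℕ) = d := by subst hjj; simp [jl]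
    refine ⟨by omega, by omega, ?_⟩
    subst hjj
    unfold vx
    cases h : F.2.1 (jl F) with
    | false =>
      obtain ⟨h3, h4, h5⟩ := flipl_false h hB
      rw [h4]
      simp
      omega
    | true =>
      obtain ⟨h3, h4, h5⟩ := flipl_true h hB
      rw [h4]
      simp
      omega
  · have h3 : (flipl F).1 j = F.1 j ∧ (flipl F).2.1 j = F.2.1 j := by
      cases h : F.2.1 (jl F) with
      | false => exact (flipl_false h hB).1 j hjj
      | true => exact (flipl_true h hB).1 j hjj
    by_cases h1 : (F.2.2 j : ℕ) < b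
    · left
      exact ⟨h1, h1, by rw [h3.1]⟩
    · right
      refine ⟨h1, h1, ?_⟩
      unfold vx
      rw [h3.1, h3.2]

/-- The parity theorem: the label counts of the boundary flags sum to zero. -/
theorem main_parity (L : LabelData (Cell (d + 1) M) E d) :
    ∑ F ∈ (Finset.univ : Finset (Flag (d + 1) M)).filter Bd, L.N (fcell F) = 0 := by
  have h2 : ∀ z : ZMod 2, z + z = 0 := by decide
  have hall : ∑ a ∈ range (d + 2), ∑ F : Flag (d + 1) M, L.N (fun i => fcell F (dl a i)) = 0 := by
    rw [Finset.sum_comm]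
    apply Finset.sum_eq_zero
    intro F _
    exact L.cocycle (fcell F) (fcell_mono F)
  have hsmall : ∀ a ∈ range (d + 1),
      ∑ F : Flag (d + 1) M, L.N (fun i => fcell F (dl a i)) = 0 := by
    intro a ha
    have ha' : a < d + 1 := by simpa using ha
    rcases Nat.eq_zero_or_pos a with h0 | h0
    · subst h0
      apply Finset.sum_involution (fun F _ => flip0 F)
      · intro F _
        have : (fun i => fcell (flip0 F) (dl 0 i)) = (fun i => fcell F (dl 0 i)) := by
          funext i
          exact fcell_flip0 F _ (dl_ne 0 i)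
        rw [this]
        exact h2 _
      · intro F _ _
        exact flip0_ne F
      · intro F _
        exact Finset.mem_univ _
      · intro F _
        exact flip0_flip0 F
    · set p : Fin (d + 1) := ⟨a - 1, by omega⟩ with hp
      set q : Fin (d + 1) := ⟨a, ha'⟩ with hq
      have hpq : (p : ℕ) + 1 = q := by simp [hp, hq]; omega
      apply Finset.sum_involution (fun F _ => flipm p q F)
      · intro F _
        have : (fun i => fcell (flipm p q F) (dl a i)) = (fun i => fcell F (dl a i)) := by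
          funext i
          exact fcell_flipm hpq F _ (dl_ne a i)
        rw [this]
        exact h2 _
      · intro F _ _
        apply flipm_ne
        intro h
        rw [h] at hpq
        omega
      · intro F _
        exact Finset.mem_univ _
      · intro F _
        exact flipm_flipm p q F
  rw [Finset.sum_range_succ, Finset.sum_congr rfl hsmall, Finset.sum_const_zero, zero_add] at hall
  have hlast : ∀ F : Flag (d + 1) M, L.N (fun i => fcell F (dl (d + 1) i)) = L.N (fcell F) := by
    intro F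
    apply L.N_congr
    intro i hi
    have : dl (d + 1) i = i := by unfold dl; split_ifs <;> omega
    rw [this]
  simp only [hlast] at hall
  rw [← Finset.sum_filter_add_sum_filter_not Finset.univ Bd] at hall
  have hnot : ∑ F ∈ (Finset.univ : Finset (Flag (d + 1) M)).filter (fun F => ¬ Bd F),
      L.N (fcell F) = 0 := by
    apply Finset.sum_involution (fun F _ => flipl F)
    · intro F hF
      have hB : ¬ Bd F := (Finset.mem_filter.1 hF).2
      have : L.N (fcell (flipl F)) = L.N (fcell F) := by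
        apply L.N_congr
        intro i hi
        exact fcell_flipl hB i hi
      rw [this]
      exact h2 _
    · intro F hF _
      exact flipl_ne (Finset.mem_filter.1 hF).2
    · intro F hF
      exact Finset.mem_filter.2 ⟨Finset.mem_univ _, flipl_bd (Finset.mem_filter.1 hF).2⟩
    · intro F hF
      exact flipl_flipl (Finset.mem_filter.1 hF).2
  rw [hnot, add_zero] at hall
  exact hall

end Pool.Agent.D0H80.FlagParity
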