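import Pool.Agent.D0H80.Flag

set_option autoImplicit false

/-! Clusters of finite subsets of the plane and the associated label data. -/

namespace Pool.Agent.D0H80.Clus

open Finset Pool.Agent.D0H80.FlagParity

noncomputable section

/-- closeness inside a finite set -/
def rel (U : Finset ℂ) (η : ℝ) (a b : ℂ) : Prop := a ∈ U ∧ b ∈ U ∧ dist a b ≤ η

/-- chain-connectedness -/
def eqv (U : Finset ℂ) (η : ℝ) : ℂ → ℂ → Prop := Relation.EqvGen (rel U η)

/-- representative of a cluster -/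
def rp (U : Finset ℂ) (η : ℝ) (z : ℂ) : ℂ :=
  Quotient.out (Quotient.mk (Relation.EqvGen.setoid (rel U η)) z)

theorem rp_eqv (U : Finset ℂ) (η : ℝ) (z : ℂ) : eqv U η (rp U η z) z :=
  Quotient.exact (Quotient.out_eq (Quotient.mk (Relation.EqvGen.setoid (rel U η)) z))

theorem rp_eq_iff {U : Finset ℂ} {η : ℝ} {z w : ℂ} : rp U η z = rp U η w ↔ eqv U η z w := by
  constructor
  · intro h
    have h1 := rp_eqv U η z
    have h2 := rp_eqv U η w
    rw [h] at h1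
    exact Relation.EqvGen.trans _ _ _ (Relation.EqvGen.symm _ _ h1) h2
  · intro h
    unfold rp
    congr 1
    exact Quotient.sound h

theorem eqv_mono {U U' : Finset ℂ} (hU : U ⊆ U') {η : ℝ} {z w : ℂ} (h : eqv U η z w) :
    eqv U' η z w :=
  Relation.EqvGen.mono (fun _ _ h => ⟨hU h.1, hU h.2.1, h.2.2⟩) _ _ h

theorem eqv_mem {U : Finset ℂ} {η : ℝ} {z w : ℂ} (h : eqv U η z w) : z ∈ U ↔ w ∈ U := by
  induction h with
  | rel a b h => exact ⟨fun _ => h.2.1, fun _ => h.1⟩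
  | refl => exact Iff.rfl
  | symm a b _ ih => exact ih.symm
  | trans a b c _ _ ih1 ih2 => exact ih1.trans ih2

theorem eqv_dist {U : Finset ℂ} {η : ℝ} (hη : 0 ≤ η) {N : ℕ} (hN : U.card ≤ N) {a b : ℂ}
    (h : eqv U η a b) : dist a b ≤ N * η := by
  by_cases ha : a ∈ U
  swap
  · -- then `a = b`
    have hab : ∀ z w : ℂ, eqv U η z w → z ∉ U → z = w := by
      intro z w hzw
      have : (z = w) ∨ (z ∈ U ∧ w ∈ U) := by
        induction hzw with
        | rel a b h => exact Or.inr ⟨h.1, h.2.1⟩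
        | refl => exact Or.inl rfl
        | symm a b _ ih => 
          rcases ih with h | h
          · exact Or.inl h.symm
          · exact Or.inr ⟨h.2, h.1⟩
        | trans a b c _ _ ih1 ih2 =>
          rcases ih1 with h1 | h1
          · rw [h1]; exact ih2
          · rcases ih2 with h2 | h2
            · rw [← h2]; exact Or.inr h1
            · exact Or.inr ⟨h1.1, h2.2⟩
      intro hz
      rcases this with h | h
      · exact h
      · exact absurd h.1 hz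
    rw [← hab a b h ha, dist_self]
    positivity
  -- gap argument
  obtain ⟨j, hj, hgap⟩ : ∃ j < N, ∀ w ∈ U, ¬ ((j : ℝ) * η < dist a w ∧ dist a w ≤ (j + 1 : ℝ) * η) := by
    by_contra hcon
    push Not at hcon
    choose! w hw1 hw2 using hcon
    have hmaps : ∀ j ∈ range N, w j ∈ U.erase a := by
      intro j hj
      have hj' : j < N := by simpa using hj
      refine Finset.mem_erase.2 ⟨?_, hw1 j hj'⟩
      intro h
      have := (hw2 j hj').1
      rw [h, dist_self] at this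
      have : (0 : ℝ) ≤ j * η := by positivity
      linarith
    have hinj : Set.InjOn w (range N : Set ℕ) := by
      intro i hi j hj hij
      have hi' : i < N := by simpa using hi
      have hj' : j < N := by simpa using hj
      by_contra hne
      obtain ⟨h1, h2⟩ := hw2 i hi'
      obtain ⟨h3, h4⟩ := hw2 j hj'
      rw [hij] at h1 h2
      rcases lt_or_gt_of_ne hne with hlt | hlt
      · have : (i : ℝ) + 1 ≤ j := by exact_mod_cast hlt
        have : ((i : ℝ) + 1) * η ≤ j * η := by gcongr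
        linarith
      · have : (j : ℝ) + 1 ≤ i := by exact_mod_cast hlt
        have : ((j : ℝ) + 1) * η ≤ i * η := by gcongr
        linarith
    have hc := Finset.card_le_card_of_injOn w hmaps hinj
    rw [Finset.card_range, Finset.card_erase_of_mem ha] at hc
    have : 0 < U.card := Finset.card_pos.2 ⟨a, ha⟩
    omega
  have hinv : ∀ z w : ℂ, eqv U η z w → ((z ∈ U ∧ dist a z ≤ j * η) ↔ (w ∈ U ∧ dist a w ≤ j * η)) := by
    intro z w hzw
    have hstep : ∀ z w : ℂ, rel U η z w → (z ∈ U ∧ dist a z ≤ j * η) →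
        (w ∈ U ∧ dist a w ≤ j * η) := by
      intro z w hr hz
      refine ⟨hr.2.1, ?_⟩
      by_contra hlt
      push Not at hlt
      apply hgap w hr.2.1
      refine ⟨hlt, ?_⟩
      have := dist_triangle a z w
      have h2 := hr.2.2
      have h3 := hz.2
      linarith
    have hsymm : ∀ z w : ℂ, rel U η z w → rel U η w z := fun z w h =>
      ⟨h.2.1, h.1, by rw [dist_comm]; exact h.2.2⟩
    induction hzw with
    | rel a b h => exact ⟨hstep _ _ h, hstep _ _ (hsymm _ _ h)⟩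
    | refl => exact Iff.rfl
    | symm a b _ ih => exact ih.symm
    | trans a b c _ _ ih1 ih2 => exact ih1.trans ih2
  have hb := (hinv a b h).1 ⟨ha, by rw [dist_self]; positivity⟩
  have : (j : ℝ) ≤ N := by exact_mod_cast hj.le
  calc dist a b ≤ j * η := hb.2
    _ ≤ N * η := by gcongr

/-- A net of finite sets over the grid, with gate types. -/
structure Net (d M : ℕ) where
  Y : (Fin (d + 1) → ℕ) → Finset ℂ
  η : ℝ
  D : ℝ
  A : Fin d → ℂ → Prop
  B : Fin d → ℂ → Prop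
  hη : 0 ≤ η
  hD : ((2 ^ (d + 1) * (d + 1) : ℕ) : ℝ) * η ≤ D
  card_le : ∀ x, (∀ j, x j ≤ M) → (Y x).card ≤ d + 1
  close : ∀ x x', (∀ j, x j ≤ M) → (∀ j, x' j ≤ M) → (∀ j, x j ≤ x' j + 1) →
    (∀ j, x' j ≤ x j + 1) → ∀ a ∈ Y x, ∃ b ∈ Y x', dist a b ≤ η
  sep : ∀ i, ∀ x, (∀ j, x j ≤ M) → ∀ a ∈ Y x, ∀ b o : ℂ, A i a → B i b → ¬ A i o → ¬ B i o →
    dist a b ≤ D → dist a o ≤ D → False
  disj : ∀ i z, A i z → ¬ B i z

namespace Net

variable {d M : ℕ} (S : Net d M)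

/-- union of the sets over the vertices of a cell -/
def U (τ : Cell (d + 1) M) : Finset ℂ := (Finset.Icc τ.lo τ.hi).biUnion S.Y

theorem mem_U {τ : Cell (d + 1) M} {z : ℂ} :
    z ∈ S.U τ ↔ ∃ x, (∀ j, τ.lo j ≤ x j ∧ x j ≤ τ.hi j) ∧ z ∈ S.Y x := by
  unfold U
  rw [Finset.mem_biUnion]
  constructor
  · rintro ⟨x, hx, hz⟩
    rw [Finset.mem_Icc] at hx
    exact ⟨x, fun j => ⟨hx.1 j, hx.2 j⟩, hz⟩
  · rintro ⟨x, hx, hz⟩
    exact ⟨x, Finset.mem_Icc.2 ⟨fun j => (hx j).1, fun j => (hx j).2⟩, hz⟩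

theorem U_mono {τ τ' : Cell (d + 1) M} (h : τ ≤ τ') : S.U τ ⊆ S.U τ' := by
  intro z hz
  rw [mem_U] at hz ⊢
  obtain ⟨x, hx, hz⟩ := hz
  exact ⟨x, fun j => ⟨(h j).1.trans (hx j).1, (hx j).2.trans (h j).2⟩, hz⟩

theorem card_U (τ : Cell (d + 1) M) : (S.U τ).card ≤ 2 ^ (d + 1) * (d + 1) := by
  unfold U
  have h1 : (Finset.Icc τ.lo τ.hi).card ≤ 2 ^ (d + 1) := by
    rw [Pi.card_Icc]
    calc ∏ i, (Finset.Icc (τ.lo i) (τ.hi i)).card ≤ ∏ _i : Fin (d + 1), 2 := by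
          apply Finset.prod_le_prod'
          intro i _
          rw [Nat.card_Icc]
          have := τ.hst i
          omega
      _ = 2 ^ (d + 1) := by simp
  calc ((Finset.Icc τ.lo τ.hi).biUnion S.Y).card ≤ (Finset.Icc τ.lo τ.hi).card * (d + 1) := by
        apply Finset.card_biUnion_le_card_mul
        intro x hx
        apply S.card_le
        intro j
        rw [Finset.mem_Icc] at hx
        exact (hx.2 j).trans (τ.hM j)
    _ ≤ 2 ^ (d + 1) * (d + 1) := Nat.mul_le_mul_right _ h1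

/-- representatives -/
def rep (τ : Cell (d + 1) M) (z : ℂ) : ℂ := rp (S.U τ) S.η z

theorem rep_eq_iff {τ : Cell (d + 1) M} {z w : ℂ} :
    S.rep τ z = S.rep τ w ↔ eqv (S.U τ) S.η z w := rp_eq_iff

theorem rep_dist {τ : Cell (d + 1) M} {z w : ℂ} (h : S.rep τ z = S.rep τ w) :
    dist z w ≤ S.D :=
  (eqv_dist S.hη (S.card_U τ) (S.rep_eq_iff.1 h)).trans S.hD

theorem rep_rep {τ τ' : Cell (d + 1) M} (h : τ ≤ τ') (z : ℂ) :
    S.rep τ' (S.rep τ z) = S.rep τ' z := by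
  rw [rep_eq_iff]
  exact eqv_mono (S.U_mono h) (rp_eqv _ _ _)

theorem rep_mono {τ τ' : Cell (d + 1) M} (h : τ ≤ τ') {z w : ℂ} (hz : S.rep τ z = S.rep τ w) :
    S.rep τ' z = S.rep τ' w := by
  rw [← S.rep_rep h z, hz, S.rep_rep h w]

theorem rep_mem {τ : Cell (d + 1) M} {z : ℂ} (hz : z ∈ S.U τ) : S.rep τ z ∈ S.U τ :=
  (eqv_mem (rp_eqv _ _ _)).2 hz

theorem rep_of_dist {τ : Cell (d + 1) M} {z w : ℂ} (hz : z ∈ S.U τ) (hw : w ∈ S.U τ)
    (h : dist z w ≤ S.η) : S.rep τ z = S.rep τ w :=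
  S.rep_eq_iff.2 (Relation.EqvGen.rel _ _ ⟨hz, hw, h⟩)

theorem le_M {τ : Cell (d + 1) M} {x : Fin (d + 1) → ℕ}
    (hx : ∀ j, τ.lo j ≤ x j ∧ x j ≤ τ.hi j) : ∀ j, x j ≤ M := fun j => (hx j).2.trans (τ.hM j)

theorem surj0 {τ : Cell (d + 1) M} {x0 : Fin (d + 1) → ℕ}
    (hx0 : ∀ j, τ.lo j ≤ x0 j ∧ x0 j ≤ τ.hi j) {z : ℂ} (hz : z ∈ S.U τ) :
    ∃ w ∈ S.Y x0, S.rep τ w = S.rep τ z := by
  have hz' := hz
  rw [mem_U] at hz
  obtain ⟨x, hx, hzx⟩ := hz
  obtain ⟨b, hb, hd⟩ := S.close x x0 (le_M hx) (le_M hx0)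
    (fun j => by have := τ.hst j; have := hx j; have := hx0 j; omega)
    (fun j => by have := τ.hst j; have := hx j; have := hx0 j; omega) z hzx
  refine ⟨b, hb, ?_⟩
  symm
  exact S.rep_of_dist hz' (S.mem_U.2 ⟨x0, hx0, hb⟩) hd

theorem lab_card (τ : Cell (d + 1) M) : ((S.U τ).image (S.rep τ)).card ≤ d + 1 := by
  have hlo : ∀ j, τ.lo j ≤ τ.lo j ∧ τ.lo j ≤ τ.hi j := fun j => ⟨le_rfl, τ.hle j⟩
  have hsub : (S.U τ).image (S.rep τ) ⊆ (S.Y τ.lo).image (S.rep τ) := by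
    intro z hz
    obtain ⟨w, hw, rfl⟩ := Finset.mem_image.1 hz
    obtain ⟨v, hv, hvw⟩ := S.surj0 hlo hw
    exact Finset.mem_image.2 ⟨v, hv, hvw⟩
  calc ((S.U τ).image (S.rep τ)).card ≤ ((S.Y τ.lo).image (S.rep τ)).card :=
        Finset.card_le_card hsub
    _ ≤ (S.Y τ.lo).card := Finset.card_image_le
    _ ≤ d + 1 := S.card_le _ (le_M hlo)

/-- the cluster of `z` is of type `A` -/
def Lt (i : Fin d) (τ : Cell (d + 1) M) (z : ℂ) : Prop :=
  ∀ w ∈ S.U τ, S.rep τ w = S.rep τ z → S.A i w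

/-- the cluster of `z` contains points of both types -/
def Mx (i : Fin d) (τ : Cell (d + 1) M) (z : ℂ) : Prop :=
  (∃ w ∈ S.U τ, S.rep τ w = S.rep τ z ∧ S.A i w) ∧
    (∃ w ∈ S.U τ, S.rep τ w = S.rep τ z ∧ S.B i w)

open Classical in
/-- the gate cochain -/
def cc (i : Fin d) (z : ℂ) (τ τ' : Cell (d + 1) M) : ZMod 2 :=
  if S.Lt i τ z ∧ S.Mx i τ' z then 1 else 0

theorem Mx_sep {i : Fin d} {τ : Cell (d + 1) M} {z : ℂ} (h : S.Mx i τ z) :
    ∀ w ∈ S.U τ, S.rep τ w = S.rep τ z → S.A i w ∨ S.B i w := by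
  intro w hw hwz
  by_contra hcon
  push Not at hcon
  obtain ⟨⟨a, ha, ha1, ha2⟩, ⟨b, hb, hb1, hb2⟩⟩ := h
  obtain ⟨x, hx, hax⟩ := S.mem_U.1 ha
  exact S.sep i x (le_M hx) a hax b w ha2 hb2 hcon.1 hcon.2
    (S.rep_dist (ha1.trans hb1.symm)) (S.rep_dist (ha1.trans hwz.symm))

theorem cc_add {i : Fin d} {τ τ' τ'' : Cell (d + 1) M} (h : τ ≤ τ') (h' : τ' ≤ τ'') {z : ℂ}
    (hz : z ∈ S.U τ) : S.cc i z τ τ'' = S.cc i z τ τ' + S.cc i z τ' τ'' := by
  have hz' : z ∈ S.U τ' := S.U_mono h hz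
  have hz'' : z ∈ S.U τ'' := S.U_mono h' hz'
  by_cases h1 : S.Lt i τ z ∧ S.Mx i τ'' z
  · have hAz : S.A i z := h1.1 z hz rfl
    have e1 : S.cc i z τ τ'' = 1 := by unfold cc; rw [if_pos h1]
    by_cases h2 : S.Mx i τ' z
    · have e2 : S.cc i z τ τ' = 1 := by unfold cc; rw [if_pos ⟨h1.1, h2⟩]
      have e3 : S.cc i z τ' τ'' = 0 := by
        unfold cc
        rw [if_neg]
        rintro ⟨h3, _⟩
        obtain ⟨_, ⟨b, hb, hb1, hb2⟩⟩ := h2
        exact S.disj i b (h3 b hb hb1) hb2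
      rw [e1, e2, e3, add_zero]
    · have e2 : S.cc i z τ τ' = 0 := by
        unfold cc; rw [if_neg]; exact fun h3 => h2 h3.2
      have e3 : S.cc i z τ' τ'' = 1 := by
        unfold cc
        rw [if_pos]
        refine ⟨?_, h1.2⟩
        intro w hw hwz
        rcases S.Mx_sep h1.2 w (S.U_mono h' hw) (S.rep_mono h' hwz) with h3 | h3
        · exact h3
        · exact absurd ⟨⟨z, hz', rfl, hAz⟩, ⟨w, hw, hwz, h3⟩⟩ h2
      rw [e1, e2, e3, zero_add]
  · have e1 : S.cc i z τ τ'' = 0 := by unfold cc; rw [if_neg h1]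
    have e2 : S.cc i z τ τ' = 0 := by
      unfold cc; rw [if_neg]
      rintro ⟨h3, ⟨⟨a, ha, ha1, ha2⟩, ⟨b, hb, hb1, hb2⟩⟩⟩
      exact h1 ⟨h3, ⟨⟨a, S.U_mono h' ha, S.rep_mono h' ha1, ha2⟩,
        ⟨b, S.U_mono h' hb, S.rep_mono h' hb1, hb2⟩⟩⟩
    have e3 : S.cc i z τ' τ'' = 0 := by
      unfold cc; rw [if_neg]
      rintro ⟨h3, h4⟩
      apply h1
      refine ⟨?_, h4⟩
      intro w hw hwz
      exact h3 w (S.U_mono h hw) (S.rep_mono h hwz)
    rw [e1, e2, e3, add_zero]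

/-- the label data of a net -/
def labelData : LabelData (Cell (d + 1) M) ℂ d where
  U := S.U
  rep := S.rep
  c := S.cc
  rep_mem _ _ hz := S.rep_mem hz
  rep_rep _ _ h z := S.rep_rep h z
  mono _ _ h := S.U_mono h
  surj τ τ' h z' hz' := by
    have hlo : ∀ j, τ'.lo j ≤ τ.lo j ∧ τ.lo j ≤ τ'.hi j :=
      fun j => ⟨(h j).1, (τ.hle j).trans (h j).2⟩
    obtain ⟨w, hw, hwz⟩ := S.surj0 hlo hz'
    exact ⟨w, S.mem_U.2 ⟨τ.lo, fun j => ⟨le_rfl, τ.hle j⟩, hw⟩, hwz⟩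
  card_le := S.lab_card
  c_rep τ τ' h i z _ := by
    unfold cc Lt Mx
    rw [S.rep_rep le_rfl, S.rep_rep h]
  c_add _ _ _ h h' _ _ hz := S.cc_add h h' hz

end Net

end

end Pool.Agent.D0H80.Clus
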