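import Pool.Agent.D0H80.Net

set_option autoImplicit false

/-! The square ring in the plane and the sets `AA x` on it. -/

namespace Pool.Agent.D0H80.Ring

open Finset Pool.Agent.D0H80.FlagParity Pool.Agent.D0H80.Clus

noncomputable section

/-- running maximum -/
def V {m : ℕ} (x : Fin m → ℕ) (j : ℕ) : ℕ :=
  ((Finset.univ : Finset (Fin m)).filter (fun l : Fin m => (l : ℕ) < j)).sup x

section V

variable {m : ℕ} (x : Fin m → ℕ)

theorem V_zero : V x 0 = 0 := by simp [V]

theorem V_mono {j j' : ℕ} (h : j ≤ j') : V x j ≤ V x j' := by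
  unfold V
  apply Finset.sup_mono
  intro l hl
  rw [Finset.mem_filter] at hl ⊢
  exact ⟨hl.1, lt_of_lt_of_le hl.2 h⟩

theorem le_V {l : Fin m} {j : ℕ} (h : (l : ℕ) < j) : x l ≤ V x j := by
  unfold V
  exact Finset.le_sup (f := x) (Finset.mem_filter.2 ⟨Finset.mem_univ _, h⟩)

theorem V_le {j c : ℕ} (h : ∀ l : Fin m, (l : ℕ) < j → x l ≤ c) : V x j ≤ c := by
  unfold V
  apply Finset.sup_le
  intro l hl
  exact h l (Finset.mem_filter.1 hl).2

theorem V_cases (j : ℕ) : V x j = 0 ∨ ∃ l : Fin m, (l : ℕ) < j ∧ V x j = x l := by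
  by_cases hne : ((Finset.univ : Finset (Fin m)).filter (fun l : Fin m => (l : ℕ) < j)).Nonempty
  · right
    obtain ⟨l, hl, hl2⟩ := Finset.exists_mem_eq_sup _ hne x
    exact ⟨l, (Finset.mem_filter.1 hl).2, hl2⟩
  · left
    rw [Finset.not_nonempty_iff_eq_empty] at hne
    unfold V
    rw [hne, Finset.sup_empty]
    rfl

theorem V_succ (j : Fin m) : V x (j + 1) = max (V x j) (x j) := by
  apply le_antisymm
  · apply V_le
    intro l hl
    rcases Nat.lt_succ_iff_lt_or_eq.1 hl with h | h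
    · exact le_max_of_le_left (le_V x h)
    · have : l = j := Fin.ext h
      rw [this]
      exact le_max_right _ _
  · apply max_le
    · exact V_mono x (Nat.le_succ _)
    · exact le_V x (Nat.lt_succ_self _)

theorem V_close {x x' : Fin m → ℕ} (h : ∀ l, x l ≤ x' l + 1) (j : ℕ) : V x j ≤ V x' j + 1 := by
  apply V_le
  intro l hl
  exact (h l).trans (Nat.succ_le_succ (le_V x' hl))

end V

variable (d K : ℕ)

/-- number of steps -/
def MM : ℕ := 8 * K * (d + 1)

/-- step length -/
def hh : ℝ := 1 / ((K : ℝ) * ((d : ℝ) + 1))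

/-- parameter -/
def uu (s : ℕ) : ℝ := -4 + s * hh d K

/-- the ring -/
def gam (s : ℕ) : ℂ :=
  ⟨min (max (uu d K s) (-4 - uu d K s)) (4 - uu d K s), |uu d K s| - 2⟩

/-- the pin -/
def pin : ℂ := ⟨0, 2⟩

/-- gates -/
def tt (i : ℕ) : ℝ := (i : ℝ) / ((d : ℝ) + 1)

/-- gate parameters -/
def GG (i : ℕ) : ℕ := 4 * K * (d + 1) + i * K

/-- the `ℓ¹` norm -/
def N1 (z : ℂ) : ℝ := |z.re| + |z.im|

theorem N1_lip (z w : ℂ) : N1 z ≤ N1 w + 2 * dist z w := by
  unfold N1
  rw [Complex.dist_eq]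
  have h1 := Complex.abs_re_le_norm (z - w)
  have h2 := Complex.abs_im_le_norm (z - w)
  rw [Complex.sub_re] at h1
  rw [Complex.sub_im] at h2
  have h3 := abs_sub_abs_le_abs_sub z.re w.re
  have h4 := abs_sub_abs_le_abs_sub z.im w.im
  linarith

theorem re_dist (z w : ℂ) : |z.re - w.re| ≤ dist z w := by
  rw [Complex.dist_eq]
  have h1 := Complex.abs_re_le_norm (z - w)
  rwa [Complex.sub_re] at h1

theorem im_dist (z w : ℂ) : |z.im - w.im| ≤ dist z w := by
  rw [Complex.dist_eq]
  have h1 := Complex.abs_im_le_norm (z - w)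
  rwa [Complex.sub_im] at h1

variable {K} (hK : 0 < K)

include hK in
theorem hh_pos : 0 < hh d K := by
  unfold hh
  have : (0 : ℝ) < K := by exact_mod_cast hK
  positivity

include hK in
theorem MM_hh : (MM d K : ℝ) * hh d K = 8 := by
  unfold MM hh
  have : (0 : ℝ) < K := by exact_mod_cast hK
  have h2 : (0 : ℝ) < (d : ℝ) + 1 := by positivity
  push_cast
  field_simp

include hK in
theorem uu_MM : uu d K (MM d K) = 4 := by
  unfold uu
  rw [MM_hh d hK]
  norm_num

theorem uu_zero : uu d K 0 = -4 := by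
  unfold uu
  simp

include hK in
theorem gam_MM : gam d K (MM d K) = pin := by
  unfold gam pin
  rw [uu_MM d hK]
  norm_num

theorem gam_zero : gam d K 0 = pin := by
  unfold gam pin
  rw [uu_zero]
  norm_num

include hK in
theorem uu_GG (i : ℕ) : uu d K (GG d K i) = tt d i := by
  unfold uu GG hh tt
  have : (0 : ℝ) < K := by exact_mod_cast hK
  have h2 : (0 : ℝ) < (d : ℝ) + 1 := by positivity
  push_cast
  field_simp
  ring

include hK in
theorem uu_le_iff {s s' : ℕ} : uu d K s ≤ uu d K s' ↔ s ≤ s' := by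
  unfold uu
  have := hh_pos d hK
  constructor
  · intro h
    have h1 : (s : ℝ) * hh d K ≤ s' * hh d K := by linarith
    have h2 := le_of_mul_le_mul_right h1 this
    exact_mod_cast h2
  · intro h
    have h1 : (s : ℝ) ≤ s' := by exact_mod_cast h
    have h2 := mul_le_mul_of_nonneg_right h1 this.le
    linarith

include hK in
theorem uu_lt_iff {s s' : ℕ} : uu d K s < uu d K s' ↔ s < s' := by
  rw [← not_le, ← not_le, uu_le_iff d hK]

theorem uu_succ (s : ℕ) : uu d K (s + 1) = uu d K s + hh d K := by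
  unfold uu
  push_cast
  ring

theorem gam_dist (s s' : ℕ) : dist (gam d K s) (gam d K s') ≤ 2 * |uu d K s - uu d K s'| := by
  rw [Complex.dist_eq]
  refine (Complex.norm_le_abs_re_add_abs_im _).trans ?_
  rw [Complex.sub_re, Complex.sub_im]
  unfold gam
  simp only
  set a := uu d K s
  set b := uu d K s'
  have h1 : |min (max a (-4 - a)) (4 - a) - min (max b (-4 - b)) (4 - b)| ≤ |a - b| := by
    have e1 := abs_min_sub_min_le_max (max a (-4 - a)) (4 - a) (max b (-4 - b)) (4 - b)
    have e2 := abs_max_sub_max_le_max a (-4 - a) b (-4 - b)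
    have e3 : |(-4 - a) - (-4 - b)| = |a - b| := by
      rw [← abs_neg]; congr 1; ring
    have e4 : |(4 - a) - (4 - b)| = |a - b| := by
      rw [← abs_neg]; congr 1; ring
    rw [e3, max_self] at e2
    rw [e4] at e1
    exact e1.trans (max_le e2 le_rfl)
  have h2 : |(|a| - 2) - (|b| - 2)| ≤ |a - b| := by
    have : (|a| - 2) - (|b| - 2) = |a| - |b| := by ring
    rw [this]
    exact abs_abs_sub_abs_le_abs_sub a b
  linarith

theorem gam_N1 {s : ℕ} (h1 : -4 ≤ uu d K s) (h2 : uu d K s ≤ 4) : N1 (gam d K s) = 2 := by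
  unfold N1 gam
  simp only
  set a := uu d K s
  rcases le_total a (-2) with h | h
  · have e1 : max a (-4 - a) = -4 - a := max_eq_right (by linarith)
    have e2 : min (-4 - a) (4 - a) = -4 - a := min_eq_left (by linarith)
    rw [e1, e2, abs_of_nonpos (show a ≤ 0 by linarith), abs_of_nonpos (show -4 - a ≤ 0 by linarith),
      abs_of_nonneg (show (0 : ℝ) ≤ -a - 2 by linarith)]
    ring
  · have e1 : max a (-4 - a) = a := max_eq_left (by linarith)
    rw [e1]
    rcases le_total a 2 with h' | h'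
    · have e2 : min a (4 - a) = a := min_eq_left (by linarith)
      have e3 : |a| ≤ 2 := abs_le.2 ⟨h, h'⟩
      rw [e2, abs_of_nonpos (show |a| - 2 ≤ 0 by linarith)]
      ring
    · have e2 : min a (4 - a) = 4 - a := min_eq_right (by linarith)
      rw [e2, abs_of_nonneg (show 0 ≤ a by linarith), abs_of_nonneg (show 0 ≤ 4 - a by linarith),
        abs_of_nonneg (show 0 ≤ a - 2 by linarith)]
      ring

/-- on the lower part the real part is the parameter -/
theorem gam_re {s : ℕ} (h : (gam d K s).im < 0) : (gam d K s).re = uu d K s := by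
  unfold gam at h ⊢
  simp only at h ⊢
  set a := uu d K s
  have h2 : |a| < 2 := by linarith
  rw [abs_lt] at h2
  have e1 : max a (-4 - a) = a := max_eq_left (by linarith)
  rw [e1]
  exact min_eq_left (by linarith)

theorem gam_im_neg {s : ℕ} (h : |uu d K s| < 2) : (gam d K s).im < 0 := by
  unfold gam
  simp only
  linarith

/-- the configuration attached to a grid point -/
def AA (d K : ℕ) (x : Fin (d + 1) → ℕ) : Finset ℂ :=
  (Finset.range (d + 2)).image (fun j => gam d K (V x j))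

theorem mem_AA {x : Fin (d + 1) → ℕ} {z : ℂ} :
    z ∈ AA d K x ↔ ∃ j, j ≤ d + 1 ∧ z = gam d K (V x j) := by
  unfold AA
  rw [Finset.mem_image]
  constructor
  · rintro ⟨j, hj, rfl⟩
    exact ⟨j, by have := Finset.mem_range.1 hj; omega, rfl⟩
  · rintro ⟨j, hj, rfl⟩
    exact ⟨j, Finset.mem_range.2 (by omega), rfl⟩

theorem AA_nonempty (x : Fin (d + 1) → ℕ) : (AA d K x).Nonempty :=
  ⟨_, (mem_AA d).2 ⟨0, Nat.zero_le _, rfl⟩⟩

theorem AA_card (x : Fin (d + 1) → ℕ) : (AA d K x).card ≤ d + 2 := by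
  unfold AA
  exact Finset.card_image_le.trans (by simp)

include hK in
theorem gam_step {s s' : ℕ} (h : s ≤ s' + 1) (h' : s' ≤ s + 1) :
    dist (gam d K s) (gam d K s') ≤ 2 * hh d K := by
  refine (gam_dist d s s').trans ?_
  have := hh_pos d hK
  have h1 : |uu d K s - uu d K s'| ≤ hh d K := by
    unfold uu
    have e : -4 + (s : ℝ) * hh d K - (-4 + s' * hh d K) = ((s : ℝ) - s') * hh d K := by ring
    rw [e, abs_mul, abs_of_pos this]
    have h2 : |(s : ℝ) - s'| ≤ 1 := by
      rw [abs_le]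
      have h3 : (s : ℝ) ≤ s' + 1 := by exact_mod_cast h
      have h4 : (s' : ℝ) ≤ s + 1 := by exact_mod_cast h'
      constructor <;> linarith
    calc |(s : ℝ) - s'| * hh d K ≤ 1 * hh d K := by gcongr
      _ = hh d K := one_mul _
  linarith

include hK in
theorem AA_close {x x' : Fin (d + 1) → ℕ} (h : ∀ l, x l ≤ x' l + 1) (h' : ∀ l, x' l ≤ x l + 1)
    {a : ℂ} (ha : a ∈ AA d K x) : ∃ b ∈ AA d K x', dist a b ≤ 2 * hh d K := by
  obtain ⟨j, hj, rfl⟩ := (mem_AA d).1 ha
  exact ⟨_, (mem_AA d).2 ⟨j, hj, rfl⟩, gam_step d hK (V_close h j) (V_close h' j)⟩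

theorem V_le_MM {x : Fin (d + 1) → ℕ} (hx : ∀ j, x j ≤ MM d K) (j : ℕ) : V x j ≤ MM d K :=
  V_le x (fun l _ => hx l)

include hK in
theorem uu_mem {s : ℕ} (hs : s ≤ MM d K) : -4 ≤ uu d K s ∧ uu d K s ≤ 4 := by
  constructor
  · rw [← uu_zero d (K := K), uu_le_iff d hK]
    exact Nat.zero_le _
  · rw [← uu_MM d hK, uu_le_iff d hK]
    exact hs

include hK in
theorem AA_N1 {x : Fin (d + 1) → ℕ} (hx : ∀ j, x j ≤ MM d K) {z : ℂ} (hz : z ∈ AA d K x) :
    N1 z = 2 := by
  obtain ⟨j, hj, rfl⟩ := (mem_AA d).1 hz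
  obtain ⟨h1, h2⟩ := uu_mem d hK (V_le_MM d hx j)
  exact gam_N1 d h1 h2

/-- remove the `j`-th point -/
def BB (d K : ℕ) (x : Fin (d + 1) → ℕ) (j : Fin (d + 1)) : Finset ℂ :=
  ((Finset.range (d + 2)).erase (j + 1)).image (fun j => gam d K (V x j))

theorem BB_card (x : Fin (d + 1) → ℕ) (j : Fin (d + 1)) : (BB d K x j).card ≤ d + 1 := by
  unfold BB
  refine Finset.card_image_le.trans ?_
  rw [Finset.card_erase_of_mem (Finset.mem_range.2 (by omega)), Finset.card_range]
  rfl

theorem BB_subset (x : Fin (d + 1) → ℕ) (j : Fin (d + 1)) : BB d K x j ⊆ AA d K x := by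
  unfold BB AA
  exact Finset.image_subset_image (Finset.erase_subset _ _)

theorem BB_mem (x : Fin (d + 1) → ℕ) (j : Fin (d + 1)) {i : ℕ} (hi : i ≤ d + 1)
    (hij : i ≠ j + 1) : gam d K (V x i) ∈ BB d K x j := by
  unfold BB
  exact Finset.mem_image.2 ⟨i, Finset.mem_erase.2 ⟨hij, Finset.mem_range.2 (by omega)⟩, rfl⟩

include hK in
theorem AA_card_bd {x : Fin (d + 1) → ℕ} (hx : ∀ j, x j ≤ MM d K) {j : Fin (d + 1)}
    (hj : x j = 0 ∨ x j = MM d K) : (AA d K x).card ≤ d + 1 := by
  refine le_trans (Finset.card_le_card (t := BB d K x j) ?_) (BB_card d x j)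
  intro z hz
  obtain ⟨i, hi, rfl⟩ := (mem_AA d).1 hz
  by_cases hij : i = j + 1
  · subst hij
    rcases hj with h | h
    · rw [V_succ, h, max_eq_left (Nat.zero_le _)]
      exact BB_mem d x j (by omega) (by omega)
    · have : V x (j + 1) = MM d K := by
        apply le_antisymm (V_le_MM d hx _)
        rw [← h]
        exact le_V x (Nat.lt_succ_self _)
      rw [this, gam_MM d hK, ← gam_zero d (K := K), ← V_zero x]
      exact BB_mem d x j (Nat.zero_le _) (by omega)
  · exact BB_mem d x j hi hij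

include hK in
theorem AA_approx {x : Fin (d + 1) → ℕ} (hx : ∀ j, x j ≤ MM d K) :
    ∃ B : Finset ℂ, B.Nonempty ∧ B.card ≤ d + 1 ∧ B ⊆ AA d K x ∧
      ∀ a ∈ AA d K x, ∃ b ∈ B, dist a b ≤ 16 / ((d : ℝ) + 1) := by
  have hpos := hh_pos d hK
  obtain ⟨j, hj⟩ : ∃ j : Fin (d + 1), (d + 1) * V x (j + 1) ≤ (d + 1) * V x j + MM d K := by
    by_contra hcon
    push Not at hcon
    have hind : ∀ n, n ≤ d + 1 → n * MM d K + n ≤ (d + 1) * V x n := by
      intro n
      induction n with
      | zero => intro _; simp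
      | succ n ih =>
        intro hn
        have h1 := ih (by omega)
        have h2 := hcon ⟨n, by omega⟩
        simp only at h2
        have h3 : (n + 1) * MM d K = n * MM d K + MM d K := by ring
        omega
    have h1 := hind (d + 1) le_rfl
    have h2 : (d + 1) * V x (d + 1) ≤ (d + 1) * MM d K := Nat.mul_le_mul_left _ (V_le_MM d hx _)
    omega
  refine ⟨BB d K x j, ⟨_, BB_mem d x j (Nat.zero_le _) (by omega)⟩, BB_card d x j,
    BB_subset d x j, ?_⟩
  intro a ha
  obtain ⟨i, hi, rfl⟩ := (mem_AA d).1 ha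
  by_cases hij : i = j + 1
  · subst hij
    refine ⟨_, BB_mem d x j (i := j) (by omega) (by omega), ?_⟩
    refine (gam_dist d _ _).trans ?_
    have hmono : V x j ≤ V x (j + 1) := V_mono x (Nat.le_succ _)
    have e : uu d K (V x (j + 1)) - uu d K (V x j) = ((V x (j + 1) : ℝ) - V x j) * hh d K := by
      unfold uu; ring
    have hm : (0 : ℝ) ≤ (V x (j + 1) : ℝ) - V x j := by
      have : (V x j : ℝ) ≤ V x (j + 1) := by exact_mod_cast hmono
      linarith
    rw [e, abs_of_nonneg (by positivity)]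
    have hj' : ((d : ℝ) + 1) * ((V x (j + 1) : ℝ) - V x j) ≤ MM d K := by
      have : ((d : ℝ) + 1) * (V x (j + 1) : ℝ) ≤ ((d : ℝ) + 1) * V x j + MM d K := by
        exact_mod_cast hj
      linarith
    have h8 := MM_hh d hK
    rw [le_div_iff₀ (by positivity)]
    have := mul_le_mul_of_nonneg_right hj' hpos.le
    nlinarith
  · exact ⟨_, BB_mem d x j hi hij, by rw [dist_self]; positivity⟩

end

end Pool.Agent.D0H80.Ring
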